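import Mathlib

set_option autoImplicit false

namespace Pool.Agent.Work.MP_c971ef_nt.Cramer

open MeasureTheory ProbabilityTheory

/-- Cramér's model of the primes: the events `A m` (`m` belongs to the random set) are
independent, `A m` has probability `1 / log m` for `m ≥ 3`, and `0` for `m < 3`. -/
structure IsCramer {Ω : Type*} [MeasurableSpace Ω] (μ : Measure Ω) (A : ℕ → Set Ω) : Prop where
  meas : ∀ m, MeasurableSet (A m)
  indep : iIndepSet A μ
  prob : ∀ m, μ (A m) = if m < 3 then 0 else ENNReal.ofReal (1 / Real.log m)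

/-- The `j`-th element (`j ≥ 1`) of the random set. -/
noncomputable def rel {Ω : Type*} (A : ℕ → Set Ω) (ω : Ω) (j : ℕ) : ℕ :=
  Nat.nth (fun m => ω ∈ A m) (j - 1)

/-- `k` is admissible for `n`: both `2k+1` and `P_{kn}^2 - 2` are in the random set, where `P_j`
is the `j`-th element of the random set. -/
def Adm {Ω : Type*} (A : ℕ → Set Ω) (ω : Ω) (n k : ℕ) : Prop :=
  ω ∈ A (2 * k + 1) ∧ ω ∈ A ((rel A ω (k * n)) ^ 2 - 2)

end Pool.Agent.Work.MP_c971ef_nt.Cramer
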