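import Mathlib

set_option autoImplicit false

namespace Pool.Agent.Work.MP_c971ef_nt.Cramer

open MeasureTheory ProbabilityTheory MeasurableSpace
open scoped BigOperators ENNReal

variable {Ω : Type*} [mΩ : MeasurableSpace Ω] {μ : Measure Ω} {A : ℕ → Set Ω}

/-- The sigma algebra generated by the events with index in `S`. -/
@[reducible] def sg (A : ℕ → Set Ω) (S : Set ℕ) : MeasurableSpace Ω := generateFrom {t | ∃ n ∈ S, A n = t}

theorem meas_sg {S : Set ℕ} {n : ℕ} (hn : n ∈ S) : MeasurableSet[sg A S] (A n) :=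
  measurableSet_generateFrom ⟨n, hn, rfl⟩

theorem sg_le (hm : ∀ n, MeasurableSet (A n)) (S : Set ℕ) : sg A S ≤ mΩ := by
  apply generateFrom_le
  rintro t ⟨n, _, rfl⟩
  exact hm n

theorem sg_mono {S T : Set ℕ} (h : S ⊆ T) : sg A S ≤ sg A T := by
  apply generateFrom_mono
  rintro t ⟨n, hn, rfl⟩
  exact ⟨n, h hn, rfl⟩

theorem inter_eq (hm : ∀ n, MeasurableSet (A n)) (hi : iIndepSet A μ) {S T : Set ℕ}
    (hST : Disjoint S T) {a b : Set Ω} (ha : MeasurableSet[sg A S] a)
    (hb : MeasurableSet[sg A T] b) : μ (a ∩ b) = μ a * μ b :=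
  (Indep_iff _ _ μ).mp (hi.indep_generateFrom_of_disjoint hm S T hST) a b ha hb

theorem biInter_compl (h : iIndepSet A μ) (s : Finset ℕ) :
    μ (⋂ m ∈ s, (A m)ᶜ) = ∏ m ∈ s, μ ((A m)ᶜ) := by
  rw [iIndepSet_iff] at h
  refine h s fun i _ => ?_
  exact (MeasurableSpace.measurableSet_generateFrom (Set.mem_singleton _)).compl

theorem core_upper [IsProbabilityMeasure μ] (hm : ∀ n, MeasurableSet (A n)) (hi : iIndepSet A μ)
    (T : Finset ℕ) (q : ℝ) (hq0 : 0 ≤ q) (hq1 : q ≤ 1) (hT : ∀ t ∈ T, ENNReal.ofReal q ≤ μ (A t))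
    (r : ℕ) (hr : r ≤ T.card) :
    μ (⋂ t ∈ T, (A t)ᶜ) ≤ ENNReal.ofReal ((1 - q) ^ r) := by
  rw [biInter_compl hi]
  have h1 : ∀ t ∈ T, μ ((A t)ᶜ) ≤ ENNReal.ofReal (1 - q) := by
    intro t ht
    rw [prob_compl_eq_one_sub (hm t), ENNReal.ofReal_sub _ hq0, ENNReal.ofReal_one]
    exact tsub_le_tsub_left (hT t ht) 1
  calc ∏ m ∈ T, μ ((A m)ᶜ) ≤ ∏ m ∈ T, ENNReal.ofReal (1 - q) := Finset.prod_le_prod' h1
    _ = ENNReal.ofReal ((1 - q) ^ T.card) := by
        rw [Finset.prod_const, ENNReal.ofReal_pow (by linarith)]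
    _ ≤ ENNReal.ofReal ((1 - q) ^ r) := by
        apply ENNReal.ofReal_le_ofReal
        exact pow_le_pow_of_le_one (by linarith) (by linarith) hr

theorem union_le [IsProbabilityMeasure μ] (hm : ∀ n, MeasurableSet (A n)) (hi : iIndepSet A μ)
    (T : Finset ℕ) (q : ℝ) (hq0 : 0 ≤ q) (hq1 : q ≤ 1) (hT : ∀ t ∈ T, μ (A t) ≤ ENNReal.ofReal q)
    (r : ℕ) (hr : T.card ≤ r) :
    μ (⋃ t ∈ T, A t) ≤ ENNReal.ofReal (1 - (1 - q) ^ r) := by
  have h0 : (⋃ t ∈ T, A t) = (⋂ t ∈ T, (A t)ᶜ)ᶜ := by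
    simp [Set.compl_iInter]
  have hms : MeasurableSet (⋂ t ∈ T, (A t)ᶜ) :=
    Finset.measurableSet_biInter _ (fun t _ => (hm t).compl)
  rw [h0, prob_compl_eq_one_sub hms, ENNReal.ofReal_sub _ (by apply pow_nonneg; linarith),
    ENNReal.ofReal_one]
  apply tsub_le_tsub_left
  rw [biInter_compl hi]
  have h1 : ∀ t ∈ T, ENNReal.ofReal (1 - q) ≤ μ ((A t)ᶜ) := by
    intro t ht
    rw [prob_compl_eq_one_sub (hm t), ENNReal.ofReal_sub _ hq0, ENNReal.ofReal_one]
    exact tsub_le_tsub_left (hT t ht) 1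
  calc ENNReal.ofReal ((1 - q) ^ r) ≤ ENNReal.ofReal ((1 - q) ^ T.card) := by
        apply ENNReal.ofReal_le_ofReal
        exact pow_le_pow_of_le_one (by linarith) (by linarith) hr
    _ = ∏ m ∈ T, ENNReal.ofReal (1 - q) := by
        rw [Finset.prod_const, ENNReal.ofReal_pow (by linarith)]
    _ ≤ ∏ m ∈ T, μ ((A m)ᶜ) := Finset.prod_le_prod' h1

theorem meas_union {S : Set ℕ} (T : Finset ℕ) (hT : ∀ t ∈ T, t ∈ S) :
    MeasurableSet[sg A S] (⋃ t ∈ T, A t) :=
  Finset.measurableSet_biUnion _ (fun t ht => meas_sg (hT t ht))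

theorem meas_inter_compl {S : Set ℕ} (T : Finset ℕ) (hT : ∀ t ∈ T, t ∈ S) :
    MeasurableSet[sg A S] (⋂ t ∈ T, (A t)ᶜ) :=
  Finset.measurableSet_biInter _ (fun t ht => (meas_sg (hT t ht)).compl)

theorem core_lower [IsProbabilityMeasure μ] (hm : ∀ n, MeasurableSet (A n)) (hi : iIndepSet A μ)
    {ι : Type*} [DecidableEq ι] (I : Finset ι) (T : ι → Finset ℕ) (q : ℝ) (hq0 : 0 ≤ q)
    (hq1 : q ≤ 1)
    (hT : ∀ i ∈ I, ∀ t ∈ T i, μ (A t) ≤ ENNReal.ofReal q) (r : ℕ)
    (hr : ∀ i ∈ I, (T i).card ≤ r)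
    (hdisj : ∀ i ∈ I, ∀ j ∈ I, i ≠ j → Disjoint (T i) (T j)) :
    μ (⋂ i ∈ I, ⋃ t ∈ T i, A t) ≤ ENNReal.ofReal ((1 - (1 - q) ^ r) ^ I.card) := by
  have hb0 : 0 ≤ 1 - (1 - q) ^ r := by
    have : (1 - q) ^ r ≤ 1 := pow_le_one₀ (by linarith) (by linarith)
    linarith
  induction I using Finset.induction_on with
  | empty => simp
  | insert i I hiI ih =>
    rw [Finset.set_biInter_insert]
    set S1 : Set ℕ := (T i : Set ℕ) with hS1
    set S2 : Set ℕ := ⋃ j ∈ I, (T j : Set ℕ) with hS2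
    have hd : Disjoint S1 S2 := by
      rw [hS2, Set.disjoint_iUnion₂_right]
      intro j hj
      rw [hS1, Finset.disjoint_coe]
      apply hdisj i (Finset.mem_insert_self _ _) j (Finset.mem_insert_of_mem hj)
      rintro rfl
      exact hiI hj
    have m1 : MeasurableSet[sg A S1] (⋃ t ∈ T i, A t) := meas_union _ (fun t ht => ht)
    have m2 : MeasurableSet[sg A S2] (⋂ j ∈ I, ⋃ t ∈ T j, A t) := by
      apply Finset.measurableSet_biInter
      intro j hj
      apply meas_union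
      intro t ht
      rw [hS2]
      exact Set.mem_biUnion hj ht
    rw [inter_eq hm hi hd m1 m2, Finset.card_insert_of_notMem hiI, pow_succ']
    rw [ENNReal.ofReal_mul hb0]
    apply mul_le_mul'
    · exact union_le hm hi (T i) q hq0 hq1 (hT i (Finset.mem_insert_self _ _)) r
        (hr i (Finset.mem_insert_self _ _))
    · apply ih
      · intro j hj; exact hT j (Finset.mem_insert_of_mem hj)
      · intro j hj; exact hr j (Finset.mem_insert_of_mem hj)
      · intro j hj l hl; exact hdisj j (Finset.mem_insert_of_mem hj) l (Finset.mem_insert_of_mem hl)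

open Classical in
/-- The part of the random set below `Y`. -/
noncomputable def below (A : ℕ → Set Ω) (Y : ℕ) (ω : Ω) : Finset ℕ :=
  (Finset.range Y).filter (fun m => ω ∈ A m)

/-- The event that the part below `Y` is `S`. -/
def conf (A : ℕ → Set Ω) (Y : ℕ) (S : Finset ℕ) : Set Ω := {ω | below A Y ω = S}

theorem conf_meas (Y : ℕ) (S : Finset ℕ) :
    MeasurableSet[sg A {m | m < Y}] (conf A Y S) := by
  classical
  by_cases hS : S ⊆ Finset.range Y
  · have h : conf A Y S = ⋂ m ∈ Finset.range Y, (if m ∈ S then A m else (A m)ᶜ) := by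
      ext ω
      simp only [conf, below, Set.mem_ofPred_eq, Set.mem_iInter, Finset.mem_range]
      constructor
      · intro h m hm
        split_ifs with hmS
        · rw [← h, Finset.mem_filter] at hmS
          exact hmS.2
        · intro hA
          apply hmS
          rw [← h, Finset.mem_filter, Finset.mem_range]
          exact ⟨hm, hA⟩
      · intro h
        ext m
        rw [Finset.mem_filter, Finset.mem_range]
        constructor
        · rintro ⟨h1, h2⟩
          by_contra hmS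
          have := h m h1
          rw [if_neg hmS] at this
          exact this h2
        · intro hmS
          have h1 := Finset.mem_range.mp (hS hmS)
          have := h m h1
          rw [if_pos hmS] at this
          exact ⟨h1, this⟩
    rw [h]
    apply Finset.measurableSet_biInter
    intro m hm
    have hm' : m ∈ {m | m < Y} := Finset.mem_range.mp hm
    split_ifs
    · exact meas_sg hm'
    · exact (meas_sg hm').compl
  · have h : conf A Y S = ∅ := by
      ext ω
      simp only [conf, Set.mem_ofPred_eq, Set.mem_empty_iff_false, iff_false]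
      intro h
      apply hS
      rw [← h]
      exact Finset.filter_subset _ _
    rw [h]
    exact @MeasurableSet.empty _ (sg A {m | m < Y})

/-- Mixing over the configurations below `Y`. -/
theorem mix [IsProbabilityMeasure μ] (hm : ∀ n, MeasurableSet (A n)) (hi : iIndepSet A μ)
    (Y : ℕ) (G : Finset ℕ → Set Ω) (ρ : ℝ≥0∞)
    (hG : ∀ S ⊆ Finset.range Y, MeasurableSet[sg A {m | Y ≤ m}] (G S))
    (hρ : ∀ S ⊆ Finset.range Y, μ (G S) ≤ ρ) :
    μ {ω | ω ∈ G (below A Y ω)} ≤ ρ := by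
  classical
  have hdisj : Disjoint {m : ℕ | m < Y} {m | Y ≤ m} := by
    rw [Set.disjoint_left]
    intro m h1 h2
    simp only [Set.mem_ofPred_eq] at h1 h2
    omega
  have h1 : {ω | ω ∈ G (below A Y ω)} ⊆
      ⋃ S ∈ (Finset.range Y).powerset, conf A Y S ∩ G S := by
    intro ω hω
    rw [Set.mem_iUnion₂]
    refine ⟨below A Y ω, ?_, rfl, hω⟩
    rw [Finset.mem_powerset]
    exact Finset.filter_subset _ _
  have h2 : ∀ S ∈ (Finset.range Y).powerset, μ (conf A Y S ∩ G S) ≤ μ (conf A Y S) * ρ := by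
    intro S hS
    rw [Finset.mem_powerset] at hS
    rw [inter_eq hm hi hdisj (conf_meas Y S) (hG S hS)]
    exact mul_le_mul' le_rfl (hρ S hS)
  have h3 : ∑ S ∈ (Finset.range Y).powerset, μ (conf A Y S) ≤ 1 := by
    rw [← measure_biUnion_finset]
    · exact prob_le_one
    · intro S _ S' _ hne
      rw [Function.onFun, Set.disjoint_left]
      intro ω h1 h2
      exact hne (h1.symm.trans h2)
    · intro S _
      exact sg_le hm _ _ (conf_meas Y S)
  calc μ {ω | ω ∈ G (below A Y ω)}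
      ≤ μ (⋃ S ∈ (Finset.range Y).powerset, conf A Y S ∩ G S) := measure_mono h1
    _ ≤ ∑ S ∈ (Finset.range Y).powerset, μ (conf A Y S ∩ G S) := measure_biUnion_finset_le _ _
    _ ≤ ∑ S ∈ (Finset.range Y).powerset, μ (conf A Y S) * ρ := Finset.sum_le_sum h2
    _ = (∑ S ∈ (Finset.range Y).powerset, μ (conf A Y S)) * ρ := by rw [Finset.sum_mul]
    _ ≤ 1 * ρ := mul_le_mul' h3 le_rfl
    _ = ρ := one_mul ρ

end Pool.Agent.Work.MP_c971ef_nt.Cramer
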