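import Mathlib
import Pool.Agent.Work.MP_c971ef_nt.Cramer.Indep
import Pool.Agent.Work.MP_c971ef_nt.Cramer.Defs

set_option autoImplicit false

namespace Pool.Agent.Work.MP_c971ef_nt.Cramer

open MeasureTheory ProbabilityTheory MeasurableSpace
open scoped BigOperators ENNReal Classical

noncomputable section

theorem exists_count_eq {p : ℕ → Prop} [DecidablePred p] {Y j : ℕ} (h : j < Nat.count p Y) :
    ∃ x, x < Y ∧ p x ∧ Nat.count p x = j := by
  induction Y with
  | zero => simp at h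
  | succ Y ih =>
    rw [Nat.count_succ] at h
    by_cases h1 : j < Nat.count p Y
    · obtain ⟨x, hx, h2, h3⟩ := ih h1
      exact ⟨x, by omega, h2, h3⟩
    · split_ifs at h with hp
      · exact ⟨Y, by omega, hp, by omega⟩
      · omega

theorem count_congr {p q : ℕ → Prop} [DecidablePred p] [DecidablePred q] {Y : ℕ} (h : ∀ m < Y, (p m ↔ q m)) :
    Nat.count p Y = Nat.count q Y := by
  rw [Nat.count_eq_card_filter_range, Nat.count_eq_card_filter_range]
  congr 1
  apply Finset.filter_congr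
  intro m hm
  exact h m (Finset.mem_range.mp hm)

theorem nth_agree {p q : ℕ → Prop} [DecidablePred p] [DecidablePred q] {Y j : ℕ} (h : ∀ m < Y, (p m ↔ q m)) (hj : j < Nat.count p Y) :
    Nat.nth p j = Nat.nth q j := by
  obtain ⟨x, hx, hpx, hc⟩ := exists_count_eq hj
  have h1 : Nat.nth p j = x := by rw [← hc]; exact Nat.nth_count hpx
  have h2 : Nat.count q x = j := by
    rw [← hc]
    exact (count_congr (fun m hm => h m (by omega))).symm
  have h3 : Nat.nth q j = x := by rw [← h2]; exact Nat.nth_count ((h x hx).mp hpx)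
  rw [h1, h3]

/-- The `j`-th element of a finite set. -/
def elt (S : Finset ℕ) (j : ℕ) : ℕ := Nat.nth (fun m => m ∈ S) (j - 1)

theorem count_mem {S : Finset ℕ} {Y : ℕ} (hS : S ⊆ Finset.range Y) :
    Nat.count (fun m => m ∈ S) Y = S.card := by
  rw [Nat.count_eq_card_filter_range]
  congr 1
  ext m
  rw [Finset.mem_filter]
  exact ⟨fun h => h.2, fun h => ⟨hS h, h⟩⟩

theorem elt_spec {S : Finset ℕ} {Y j : ℕ} (hS : S ⊆ Finset.range Y) (hj : 1 ≤ j)
    (hjS : j ≤ S.card) :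
    elt S j < Y ∧ Nat.count (fun m => m ∈ S) (elt S j) = j - 1 := by
  have h1 : j - 1 < Nat.count (fun m => m ∈ S) Y := by rw [count_mem hS]; omega
  obtain ⟨x, hx, hpx, hc⟩ := exists_count_eq h1
  have h2 : elt S j = x := by unfold elt; rw [← hc]; exact Nat.nth_count hpx
  rw [h2]
  exact ⟨hx, hc⟩

theorem le_elt {S : Finset ℕ} {Y j : ℕ} (hS : S ⊆ Finset.range Y) (hj : 1 ≤ j)
    (hjS : j ≤ S.card) : j - 1 ≤ elt S j := by
  have := (elt_spec hS hj hjS).2
  rw [← this]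
  exact Nat.count_le _

theorem elt_inj {S : Finset ℕ} {Y i j : ℕ} (hS : S ⊆ Finset.range Y) (hi : 1 ≤ i)
    (hiS : i ≤ S.card) (hj : 1 ≤ j) (hjS : j ≤ S.card) (h : elt S i = elt S j) : i = j := by
  have h1 := (elt_spec hS hi hiS).2
  have h2 := (elt_spec hS hj hjS).2
  rw [h, h2] at h1
  omega

/-- The `k ≤ K` with `2k+1` in `S`. -/
def ks (S : Finset ℕ) (K : ℕ) : Finset ℕ := (Finset.Icc 1 K).filter (fun k => 2 * k + 1 ∈ S)

/-- The targets for `n`. -/
def tg (S : Finset ℕ) (K n : ℕ) : Finset ℕ := (ks S K).image (fun k => (elt S (k * n)) ^ 2 - 2)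

theorem index_ok {S : Finset ℕ} {K n k : ℕ} (hn : 1 ≤ n) (hc : K * n ≤ S.card) (hk : k ∈ ks S K) :
    n ≤ k * n ∧ 1 ≤ k * n ∧ k * n ≤ S.card := by
  rw [ks, Finset.mem_filter, Finset.mem_Icc] at hk
  have h1 : n ≤ k * n := Nat.le_mul_of_pos_left n hk.1.1
  have h2 : k * n ≤ K * n := Nat.mul_le_mul_right n hk.1.2
  omega

theorem sq_sub_inj {a b c : ℕ} (ha : c ≤ a) (hb : c ≤ b) (hc : 2 < c ^ 2)
    (h : a ^ 2 - 2 = b ^ 2 - 2) : a = b := by
  have h1 : c ^ 2 ≤ a ^ 2 := Nat.pow_le_pow_left ha 2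
  have h2 : c ^ 2 ≤ b ^ 2 := Nat.pow_le_pow_left hb 2
  have h3 : a ^ 2 = b ^ 2 := by omega
  exact Nat.pow_left_injective (by norm_num : 2 ≠ 0) h3

theorem tg_bounds {S : Finset ℕ} {Y K n t : ℕ} (hS : S ⊆ Finset.range Y) (hn : 1 ≤ n)
    (hc : K * n ≤ S.card) (ht : t ∈ tg S K n) : (n - 1) ^ 2 - 2 ≤ t ∧ t ≤ Y ^ 2 := by
  rw [tg, Finset.mem_image] at ht
  obtain ⟨k, hk, rfl⟩ := ht
  obtain ⟨h1, h2, h3⟩ := index_ok hn hc hk
  have h4 := le_elt hS h2 h3
  have h5 := (elt_spec hS h2 h3).1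
  constructor
  · apply Nat.sub_le_sub_right
    apply Nat.pow_le_pow_left
    omega
  · have : elt S (k * n) ^ 2 ≤ Y ^ 2 := Nat.pow_le_pow_left h5.le 2
    omega

theorem tg_card {S : Finset ℕ} {Y K n : ℕ} (hS : S ⊆ Finset.range Y) (hn : 1 ≤ n)
    (hc : K * n ≤ S.card) (hn2 : 2 < (n - 1) ^ 2) : (tg S K n).card = (ks S K).card := by
  rw [tg, Finset.card_image_of_injOn]
  intro k hk k' hk' h
  simp only at h
  obtain ⟨a1, a2, a3⟩ := index_ok hn hc hk
  obtain ⟨b1, b2, b3⟩ := index_ok hn hc hk'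
  have h4 := le_elt hS a2 a3
  have h5 := le_elt hS b2 b3
  have h6 := sq_sub_inj (c := n - 1) (by omega) (by omega) hn2 h
  have h7 := elt_inj hS a2 a3 b2 b3 h6
  exact Nat.eq_of_mul_eq_mul_right (by omega) h7

theorem tg_disjoint {S : Finset ℕ} {Y K N D n n' : ℕ} (hS : S ⊆ Finset.range Y) (hN : 1 ≤ N)
    (hc : K * (N + D) ≤ S.card) (hN2 : 2 < (N - 1) ^ 2) (hKD : K * D ≤ N)
    (hn : n ∈ Finset.Ico N (N + D)) (hn' : n' ∈ Finset.Ico N (N + D)) (hne : n ≠ n') :
    Disjoint (tg S K n) (tg S K n') := by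
  rw [Finset.mem_Ico] at hn hn'
  have hcn : K * n ≤ S.card := (Nat.mul_le_mul_left K hn.2.le).trans hc
  have hcn' : K * n' ≤ S.card := (Nat.mul_le_mul_left K hn'.2.le).trans hc
  rw [Finset.disjoint_left]
  intro t ht ht'
  rw [tg, Finset.mem_image] at ht ht'
  obtain ⟨k, hk, h1⟩ := ht
  obtain ⟨k', hk', h2⟩ := ht'
  obtain ⟨a1, a2, a3⟩ := index_ok (by omega) hcn hk
  obtain ⟨b1, b2, b3⟩ := index_ok (by omega) hcn' hk'
  have h4 := le_elt hS a2 a3
  have h5 := le_elt hS b2 b3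
  have h6 := sq_sub_inj (c := N - 1) (by omega) (by omega) hN2 (h1.trans h2.symm)
  have h7 := elt_inj hS a2 a3 b2 b3 h6
  rw [ks, Finset.mem_filter, Finset.mem_Icc] at hk hk'
  -- k n = k' n' with n, n' in a short interval
  have key : ∀ n n' k k' : ℕ, N ≤ n → n' < N + D → n < n' → 1 ≤ k' → k' ≤ K →
      k * n = k' * n' → False := by
    intro n n' k k' c1 c2 c3 c4 c5 c6
    have c7 : k' < k := by
      by_contra h
      have h8 : k * n ≤ k' * n := Nat.mul_le_mul_right n (by omega)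
      have h9 : k' * n < k' * n' := Nat.mul_lt_mul_of_pos_left c3 c4
      omega
    have c8 : (k' + 1) * n ≤ k * n := Nat.mul_le_mul_right n c7
    have c9 : (k' + 1) * n = k' * n + n := by ring
    obtain ⟨e, he⟩ := Nat.exists_eq_add_of_lt c3
    have c10 : k' * n' = k' * n + k' * (e + 1) := by rw [he]; ring
    have c11 : k' * (e + 1) ≤ K * (e + 1) := Nat.mul_le_mul_right _ c5
    have c12 : K * (e + 1) < K * D := Nat.mul_lt_mul_of_pos_left (by omega) (by omega)
    omega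
  rcases Nat.lt_or_gt_of_ne hne with h | h
  · exact key n n' k k' hn.1 hn'.2 h hk'.1.1 hk'.1.2 h7
  · exact key n' n k' k hn'.1 hn.2 h hk.1.1 hk.1.2 h7.symm

section

variable {Ω : Type*} [mΩ : MeasurableSpace Ω] {μ : Measure Ω} {A : ℕ → Set Ω}

theorem mem_below {Y m : ℕ} {ω : Ω} (hm : m < Y) : m ∈ below A Y ω ↔ ω ∈ A m := by
  unfold below
  rw [Finset.mem_filter, Finset.mem_range]
  exact ⟨fun h => h.2, fun h => ⟨hm, h⟩⟩

theorem below_sub (Y : ℕ) (ω : Ω) : below A Y ω ⊆ Finset.range Y := Finset.filter_subset _ _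

theorem rel_eq {Y j : ℕ} {ω : Ω} (hj : 1 ≤ j) (hjS : j ≤ (below A Y ω).card) :
    rel A ω j = elt (below A Y ω) j := by
  unfold rel elt
  apply nth_agree (Y := Y)
  · intro m hm
    exact (mem_below hm).symm
  · have h1 : Nat.count (fun m => ω ∈ A m) Y = (below A Y ω).card := by
      rw [Nat.count_eq_card_filter_range]
      rfl
    rw [h1]
    omega

theorem adm_iff {Y K n k : ℕ} {ω : Ω} (hK : 2 * K + 1 < Y) (hn : 1 ≤ n)
    (hc : K * n ≤ (below A Y ω).card) (hk : k ∈ Finset.Icc 1 K) :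
    Adm A ω n k ↔ k ∈ ks (below A Y ω) K ∧
      ω ∈ A ((elt (below A Y ω) (k * n)) ^ 2 - 2) := by
  have hk' := Finset.mem_Icc.mp hk
  have h1 : 2 * k + 1 < Y := by omega
  have h2 : k * n ≤ (below A Y ω).card := (Nat.mul_le_mul_right n hk'.2).trans hc
  have h3 : 1 ≤ k * n := Nat.mul_pos hk'.1 hn
  unfold Adm
  rw [rel_eq h3 h2, ks, Finset.mem_filter, mem_below h1]
  tauto

theorem ks_card {Y K : ℕ} {ω : Ω} (hK : 2 * K + 1 < Y) :
    (ks (below A Y ω) K) = (Finset.Icc 1 K).filter (fun k => ω ∈ A (2 * k + 1)) := by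
  unfold ks
  apply Finset.filter_congr
  intro k hk
  rw [Finset.mem_Icc] at hk
  exact mem_below (by omega)

theorem upper_fixed [IsProbabilityMeasure μ] (hm : ∀ n, MeasurableSet (A n))
    (hi : iIndepSet A μ) (n K Y r : ℕ) (q : ℝ) (hq0 : 0 ≤ q) (hq1 : q ≤ 1) (hn : 1 ≤ n)
    (hK : 2 * K + 1 < Y) (hn2 : 2 < (n - 1) ^ 2) (hY : Y ≤ (n - 1) ^ 2 - 2)
    (hq : ∀ t, Y ≤ t → t ≤ Y ^ 2 → ENNReal.ofReal q ≤ μ (A t)) :
    μ {ω | r ≤ ((Finset.Icc 1 K).filter (fun k => ω ∈ A (2 * k + 1))).card ∧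
      K * n ≤ (below A Y ω).card ∧ ∀ k ∈ Finset.Icc 1 K, ¬ Adm A ω n k} ≤
      ENNReal.ofReal ((1 - q) ^ r) := by
  set G : Finset ℕ → Set Ω := fun S =>
    if r ≤ (ks S K).card ∧ K * n ≤ S.card then ⋂ t ∈ tg S K n, (A t)ᶜ else ∅ with hG
  refine le_trans (measure_mono ?_) (mix hm hi Y G _ ?_ ?_)
  · intro ω hω
    obtain ⟨h1, h2, h3⟩ := hω
    simp only [hG, Set.mem_ofPred_eq]
    rw [if_pos ⟨by rw [ks_card hK]; exact h1, h2⟩, Set.mem_iInter₂]
    intro t ht
    rw [tg, Finset.mem_image] at ht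
    obtain ⟨k, hk, rfl⟩ := ht
    intro hA
    have hkI : k ∈ Finset.Icc 1 K := (Finset.mem_filter.mp hk).1
    exact h3 k hkI ((adm_iff hK hn h2 hkI).mpr ⟨hk, hA⟩)
  · intro S hS
    simp only [hG]
    split_ifs with h
    · apply meas_inter_compl
      intro t ht
      have := (tg_bounds hS hn h.2 ht).1
      rw [Set.mem_ofPred_eq]
      omega
    · exact @MeasurableSet.empty _ (sg A {m | Y ≤ m})
  · intro S hS
    simp only [hG]
    split_ifs with h
    · apply core_upper hm hi _ q hq0 hq1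
      · intro t ht
        have := tg_bounds hS hn h.2 ht
        exact hq t (by omega) this.2
      · rw [tg_card hS hn h.2 hn2]
        exact h.1
    · simp

theorem lower_fixed [IsProbabilityMeasure μ] (hm : ∀ n, MeasurableSet (A n))
    (hi : iIndepSet A μ) (N D K Y r : ℕ) (q : ℝ) (hq0 : 0 ≤ q) (hq1 : q ≤ 1) (hN : 1 ≤ N)
    (hK : 2 * K + 1 < Y) (hN2 : 2 < (N - 1) ^ 2) (hY : Y ≤ (N - 1) ^ 2 - 2) (hKD : K * D ≤ N)
    (hq : ∀ t, Y ≤ t → (N - 1) ^ 2 - 2 ≤ t → μ (A t) ≤ ENNReal.ofReal q) :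
    μ {ω | ((Finset.Icc 1 K).filter (fun k => ω ∈ A (2 * k + 1))).card ≤ r ∧
      K * (N + D) ≤ (below A Y ω).card ∧
      ∀ n ∈ Finset.Ico N (N + D), ∃ k ∈ Finset.Icc 1 K, Adm A ω n k} ≤
      ENNReal.ofReal ((1 - (1 - q) ^ r) ^ D) := by
  set G : Finset ℕ → Set Ω := fun S =>
    if (ks S K).card ≤ r ∧ K * (N + D) ≤ S.card then
      ⋂ n ∈ Finset.Ico N (N + D), ⋃ t ∈ tg S K n, A t else ∅ with hG
  refine le_trans (measure_mono ?_) (mix hm hi Y G _ ?_ ?_)
  · intro ω hω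
    obtain ⟨h1, h2, h3⟩ := hω
    simp only [hG, Set.mem_ofPred_eq]
    rw [if_pos ⟨by rw [ks_card hK]; exact h1, h2⟩, Set.mem_iInter₂]
    intro n hn
    obtain ⟨k, hkI, hk⟩ := h3 n hn
    rw [Finset.mem_Ico] at hn
    have hcn : K * n ≤ (below A Y ω).card := (Nat.mul_le_mul_left K hn.2.le).trans h2
    obtain ⟨h4, h5⟩ := (adm_iff hK (by omega) hcn hkI).mp hk
    rw [Set.mem_iUnion₂]
    exact ⟨_, Finset.mem_image_of_mem _ h4, h5⟩
  · intro S hS
    simp only [hG]
    split_ifs with h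
    · apply Finset.measurableSet_biInter
      intro n hn
      rw [Finset.mem_Ico] at hn
      apply meas_union
      intro t ht
      have hcn : K * n ≤ S.card := (Nat.mul_le_mul_left K hn.2.le).trans h.2
      have h1 := (tg_bounds hS (by omega) hcn ht).1
      have h2 : (N - 1) ^ 2 - 2 ≤ (n - 1) ^ 2 - 2 := by
        apply Nat.sub_le_sub_right
        apply Nat.pow_le_pow_left
        omega
      rw [Set.mem_ofPred_eq]
      omega
    · exact @MeasurableSet.empty _ (sg A {m | Y ≤ m})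
  · intro S hS
    simp only [hG]
    split_ifs with h
    · have hcard : (Finset.Ico N (N + D)).card = D := by simp
      have hmain := core_lower hm hi (Finset.Ico N (N + D)) (fun n => tg S K n) q hq0 hq1
        (by
          intro n hn t ht
          rw [Finset.mem_Ico] at hn
          have hcn : K * n ≤ S.card := (Nat.mul_le_mul_left K hn.2.le).trans h.2
          have h1 := (tg_bounds hS (by omega) hcn ht).1
          have h2 : (N - 1) ^ 2 - 2 ≤ (n - 1) ^ 2 - 2 := by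
            apply Nat.sub_le_sub_right
            apply Nat.pow_le_pow_left
            omega
          exact hq t (by omega) (by omega)) r
        (by
          intro n _
          exact (Finset.card_image_le).trans h.1)
        (by
          intro n hn n' hn' hne
          exact tg_disjoint hS hN h.2 hN2 hKD hn hn' hne)
      rw [hcard] at hmain
      exact hmain
    · simp

end

end

end Pool.Agent.Work.MP_c971ef_nt.Cramer
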