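import Mathlib

set_option autoImplicit false

namespace Pool.Agent.Work.MP_c971ef_nt.Cramer

open Filter Topology
open scoped BigOperators

noncomputable section

/-- The scale `c log^2 n loglog n`. -/
def fc (c : ℝ) (n : ℕ) : ℝ := c * (Real.log n) ^ 2 * Real.log (Real.log n)

theorem tendsto_L : Tendsto (fun n : ℕ => Real.log (n:ℝ)) atTop atTop :=
  Real.tendsto_log_atTop.comp tendsto_natCast_atTop_atTop

theorem tendsto_LL : Tendsto (fun n : ℕ => Real.log (Real.log (n:ℝ))) atTop atTop :=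
  Real.tendsto_log_atTop.comp tendsto_L

theorem tendsto_fc {c : ℝ} (hc : 0 < c) : Tendsto (fc c) atTop atTop := by
  have h1 : Tendsto (fun n : ℕ => c * (Real.log (n:ℝ)) ^ 2) atTop atTop :=
    Tendsto.const_mul_atTop hc ((tendsto_pow_atTop two_ne_zero).comp tendsto_L)
  exact h1.atTop_mul_atTop₀ tendsto_LL

/-- `log x / x → 0`. -/
theorem tendsto_log_div : Tendsto (fun x : ℝ => Real.log x / x) atTop (𝓝 0) := by
  have := Real.isLittleO_log_id_atTop.tendsto_div_nhds_zero
  simpa using this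

theorem tendsto_floor_log : Tendsto (fun x : ℝ => ((⌊x⌋₊ : ℝ) / Real.log ⌊x⌋₊) / (x / Real.log x))
    atTop (𝓝 1) := by
  have h1 : Tendsto (fun x : ℝ => (⌊x⌋₊ : ℝ) / x) atTop (𝓝 1) := tendsto_nat_floor_div_atTop
  have h2 : Tendsto (fun x : ℝ => Real.log ((⌊x⌋₊ : ℝ) / x)) atTop (𝓝 0) := by
    have := (Real.continuousAt_log one_ne_zero).tendsto.comp h1
    rw [Real.log_one] at this
    exact this
  have h3 : Tendsto (fun x : ℝ => Real.log ((⌊x⌋₊ : ℝ) / x) / Real.log x) atTop (𝓝 0) :=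
    h2.div_atTop Real.tendsto_log_atTop
  have h4 : Tendsto (fun x : ℝ => 1 + Real.log ((⌊x⌋₊ : ℝ) / x) / Real.log x) atTop (𝓝 1) := by
    simpa using h3.const_add 1
  have h5 : Tendsto (fun x : ℝ => ((⌊x⌋₊ : ℝ) / x) /
      (1 + Real.log ((⌊x⌋₊ : ℝ) / x) / Real.log x)) atTop (𝓝 1) := by
    have := h1.div h4 one_ne_zero
    rw [div_one] at this
    exact this
  refine h5.congr' ?_
  filter_upwards [eventually_ge_atTop (3:ℝ)] with x hx
  have hx0 : (0:ℝ) < x := by linarith
  have hf2 : (2:ℝ) ≤ (⌊x⌋₊ : ℝ) := by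
    have : (2:ℕ) ≤ ⌊x⌋₊ := Nat.le_floor (by push_cast; linarith)
    exact_mod_cast this
  have hf0 : (0:ℝ) < (⌊x⌋₊ : ℝ) := by linarith
  have hl : 0 < Real.log x := Real.log_pos (by linarith)
  have hl2 : 0 < Real.log (⌊x⌋₊ : ℝ) := Real.log_pos (by linarith)
  have e : 1 + Real.log ((⌊x⌋₊ : ℝ) / x) / Real.log x = Real.log (⌊x⌋₊ : ℝ) / Real.log x := by
    rw [Real.log_div hf0.ne' hx0.ne']
    field_simp
    ring
  rw [e]
  field_simp

theorem tendsto_fc_log {c : ℝ} (hc : 0 < c) :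
    Tendsto (fun n : ℕ => (fc c n / Real.log (fc c n)) / (Real.log n) ^ 2) atTop (𝓝 (c / 2)) := by
  have h1 : Tendsto (fun n : ℕ => Real.log c / Real.log (Real.log (n:ℝ))) atTop (𝓝 0) :=
    tendsto_const_nhds.div_atTop tendsto_LL
  have h2 : Tendsto (fun n : ℕ => Real.log (Real.log (Real.log (n:ℝ))) /
      Real.log (Real.log (n:ℝ))) atTop (𝓝 0) := tendsto_log_div.comp tendsto_LL
  have h3 : Tendsto (fun n : ℕ => Real.log c / Real.log (Real.log (n:ℝ)) + 2 +
      Real.log (Real.log (Real.log (n:ℝ))) / Real.log (Real.log (n:ℝ))) atTop (𝓝 2) := by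
    simpa using (h1.add_const 2).add h2
  have h4 : Tendsto (fun n : ℕ => c / (Real.log c / Real.log (Real.log (n:ℝ)) + 2 +
      Real.log (Real.log (Real.log (n:ℝ))) / Real.log (Real.log (n:ℝ)))) atTop (𝓝 (c / 2)) :=
    tendsto_const_nhds.div h3 two_ne_zero
  refine h4.congr' ?_
  filter_upwards [tendsto_L.eventually_gt_atTop 1, tendsto_LL.eventually_gt_atTop 1,
    (tendsto_fc hc).eventually_gt_atTop 1] with n hn1 hn2 hn3
  have e : Real.log (fc c n) = Real.log c + 2 * Real.log (Real.log (n:ℝ)) +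
      Real.log (Real.log (Real.log (n:ℝ))) := by
    unfold fc
    rw [Real.log_mul (by positivity) (by linarith), Real.log_mul hc.ne' (by positivity),
      Real.log_pow]
    push_cast
    ring
  have hpos : 0 < Real.log (fc c n) := Real.log_pos hn3
  rw [e] at hpos ⊢
  unfold fc
  have h5 : Real.log c / Real.log (Real.log (n:ℝ)) + 2 +
      Real.log (Real.log (Real.log (n:ℝ))) / Real.log (Real.log (n:ℝ)) =
      (Real.log c + 2 * Real.log (Real.log (n:ℝ)) +
      Real.log (Real.log (Real.log (n:ℝ)))) / Real.log (Real.log (n:ℝ)) := by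
    field_simp
  rw [h5]
  field_simp

/-- `K / log K` for `K = floor (c log^2 n loglog n)`, divided by `log^2 n`. -/
theorem tendsto_K {c : ℝ} (hc : 0 < c) :
    Tendsto (fun n : ℕ => ((⌊fc c n⌋₊ : ℝ) / Real.log ⌊fc c n⌋₊) / (Real.log n) ^ 2) atTop
      (𝓝 (c / 2)) := by
  have h1 := tendsto_floor_log.comp (tendsto_fc hc)
  have h2 := h1.mul (tendsto_fc_log hc)
  rw [one_mul] at h2
  refine h2.congr' ?_
  filter_upwards [tendsto_L.eventually_gt_atTop 1, (tendsto_fc hc).eventually_gt_atTop 1] with n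
    hn1 hn3
  have hpos : 0 < Real.log (fc c n) := Real.log_pos hn3
  simp only [Function.comp]
  field_simp

/-- `fc c n ≤ n^s` eventually. -/
theorem fc_le_rpow (c : ℝ) (hc : 0 < c) {s : ℝ} (hs : 0 < s) :
    ∀ᶠ n : ℕ in atTop, fc c n ≤ (n:ℝ) ^ s := by
  have h1 : Tendsto (fun x : ℝ => (Real.log x) ^ 3 / x ^ s) atTop (𝓝 0) := by
    have := (isLittleO_log_rpow_rpow_atTop (s := s) 3 hs).tendsto_div_nhds_zero
    refine this.congr' ?_
    filter_upwards [eventually_gt_atTop (1:ℝ)] with x hx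
    norm_cast
  have h2 := h1.comp tendsto_natCast_atTop_atTop
  have h3 := h2.eventually (eventually_lt_nhds (show (0:ℝ) < 1 / c by positivity))
  filter_upwards [h3, eventually_ge_atTop 3, tendsto_L.eventually_gt_atTop 1] with n hn hn3 hl
  have hn0 : (0:ℝ) < n := by exact_mod_cast (by omega : 0 < n)
  have hp : 0 < (n:ℝ) ^ s := Real.rpow_pos_of_pos hn0 s
  simp only [Function.comp] at hn
  rw [div_lt_div_iff₀ hp hc] at hn
  have h4 : Real.log (Real.log n) ≤ Real.log n := by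
    have := Real.log_le_sub_one_of_pos (show 0 < Real.log (n:ℝ) by linarith)
    linarith
  unfold fc
  calc c * (Real.log n) ^ 2 * Real.log (Real.log n) ≤ c * (Real.log n) ^ 2 * Real.log n := by
        apply mul_le_mul_of_nonneg_left h4 (by positivity)
    _ = (Real.log n) ^ 3 * c := by ring
    _ ≤ 1 * (n:ℝ) ^ s := hn.le
    _ = _ := one_mul _

end

end Pool.Agent.Work.MP_c971ef_nt.Cramer
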