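import Mathlib
import Pool.Agent.Work.MP_c971ef_nt.Cramer.RealA

set_option autoImplicit false

namespace Pool.Agent.Work.MP_c971ef_nt.Cramer

open Filter Topology
open scoped BigOperators

noncomputable section

/-- `∑_{k ≤ K} 1 / log (2k+1)`. -/
def SK (K : ℕ) : ℝ := ∑ k ∈ Finset.Icc 1 K, 1 / Real.log ((2 * k + 1 : ℕ) : ℝ)

theorem SK_ge {δ : ℝ} (hδ : 0 < δ) : ∀ᶠ K : ℕ in atTop, (1 - δ) * (K / Real.log K) ≤ SK K := by
  have h1 : ∀ᶠ K : ℕ in atTop, Real.log 3 / δ < Real.log (K:ℝ) := tendsto_L.eventually_gt_atTop _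
  filter_upwards [h1, eventually_ge_atTop 2] with K hK hK2
  have hK2' : (2:ℝ) ≤ K := by exact_mod_cast hK2
  have hl : 0 < Real.log K := Real.log_pos (by linarith)
  have hl3 : 0 < Real.log 3 := Real.log_pos (by norm_num)
  rw [div_lt_iff₀ hδ] at hK
  have h2 : ∀ k ∈ Finset.Icc 1 K, (1 - δ) / Real.log K ≤ 1 / Real.log ((2 * k + 1 : ℕ) : ℝ) := by
    intro k hk
    rw [Finset.mem_Icc] at hk
    have hk1 : (1:ℝ) ≤ k := by exact_mod_cast hk.1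
    have hkK : (k:ℝ) ≤ K := by exact_mod_cast hk.2
    have h3 : Real.log ((2 * k + 1 : ℕ) : ℝ) ≤ Real.log (3 * K) := by
      push_cast
      apply Real.log_le_log (by linarith) (by linarith)
    have h4 : 0 < Real.log ((2 * k + 1 : ℕ) : ℝ) := by
      push_cast
      exact Real.log_pos (by linarith)
    rw [Real.log_mul (by norm_num) (by linarith)] at h3
    rw [div_le_div_iff₀ hl h4]
    rcases le_or_gt 1 δ with h | h
    · have : (1 - δ) * Real.log ((2 * k + 1 : ℕ) : ℝ) ≤ 0 :=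
        mul_nonpos_of_nonpos_of_nonneg (by linarith) h4.le
      linarith
    · nlinarith
  have h5 := Finset.sum_le_sum h2
  rw [Finset.sum_const, Nat.card_Icc, nsmul_eq_mul] at h5
  simp only [Nat.add_sub_cancel] at h5
  unfold SK
  refine le_trans (le_of_eq ?_) h5
  ring

theorem SK_le {δ : ℝ} (hδ : 0 < δ) : ∀ᶠ K : ℕ in atTop, SK K ≤ (1 + δ) * (K / Real.log K) := by
  -- reduce to δ ≤ 1
  wlog h1 : δ ≤ 1 generalizing δ with H
  · filter_upwards [H one_pos le_rfl, eventually_ge_atTop 2] with K hK hK2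
    have hK2' : (2:ℝ) ≤ K := by exact_mod_cast hK2
    have hl : 0 < Real.log K := Real.log_pos (by linarith)
    refine hK.trans ?_
    have : 0 ≤ (K:ℝ) / Real.log K := by positivity
    nlinarith
  set η := δ / 4 with hη
  have hη0 : 0 < η := by positivity
  have hη1 : η ≤ 1 / 4 := by linarith
  have hsmall : ∀ᶠ K : ℕ in atTop, Real.log (K:ℝ) / (K:ℝ) ^ η < δ / 2 := by
    have := (isLittleO_log_rpow_atTop hη0).tendsto_div_nhds_zero
    exact (this.comp tendsto_natCast_atTop_atTop).eventually (eventually_lt_nhds (by positivity))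
  filter_upwards [hsmall, eventually_ge_atTop 2] with K hK hK2
  have hK2' : (2:ℝ) ≤ K := by exact_mod_cast hK2
  have hK0 : (0:ℝ) < K := by linarith
  have hl : 0 < Real.log K := Real.log_pos (by linarith)
  have h2 : ∀ k ∈ Finset.Icc 1 K, 1 / Real.log ((2 * k + 1 : ℕ) : ℝ) ≤
      (if (k:ℝ) ≤ (K:ℝ) ^ (1 - η) then 1 else 0) + (1 + δ / 2) / Real.log K := by
    intro k hk
    rw [Finset.mem_Icc] at hk
    have hk1 : (1:ℝ) ≤ k := by exact_mod_cast hk.1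
    have h4 : 1 ≤ Real.log ((2 * k + 1 : ℕ) : ℝ) := by
      push_cast
      rw [Real.le_log_iff_exp_le (by linarith)]
      have := Real.exp_one_lt_d9
      linarith
    split_ifs with h
    · have : 1 / Real.log ((2 * k + 1 : ℕ) : ℝ) ≤ 1 := by
        rw [div_le_one (by linarith)]; exact h4
      have : 0 ≤ (1 + δ / 2) / Real.log K := by positivity
      linarith
    · rw [not_le] at h
      have h5 : Real.log ((K:ℝ) ^ (1 - η)) ≤ Real.log ((2 * k + 1 : ℕ) : ℝ) := by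
        apply Real.log_le_log (Real.rpow_pos_of_pos hK0 _)
        push_cast
        linarith
      rw [Real.log_rpow hK0] at h5
      rw [zero_add, div_le_div_iff₀ (by linarith) hl]
      have h6 : 1 ≤ (1 + δ / 2) * (1 - η) := by rw [hη]; nlinarith
      calc 1 * Real.log K ≤ ((1 + δ / 2) * (1 - η)) * Real.log K :=
            mul_le_mul_of_nonneg_right h6 hl.le
        _ = (1 + δ / 2) * ((1 - η) * Real.log K) := by ring
        _ ≤ _ := by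
            apply mul_le_mul_of_nonneg_left h5 (by positivity)
  have h3 := Finset.sum_le_sum h2
  rw [Finset.sum_add_distrib, Finset.sum_const, Nat.card_Icc, nsmul_eq_mul, ← Finset.sum_filter,
    Finset.sum_const, nsmul_eq_mul] at h3
  simp only [Nat.add_sub_cancel, mul_one] at h3
  have h7 : (((Finset.Icc 1 K).filter (fun k : ℕ => (k:ℝ) ≤ (K:ℝ) ^ (1 - η))).card : ℝ) ≤
      (K:ℝ) ^ (1 - η) := by
    have h8 : (Finset.Icc 1 K).filter (fun k : ℕ => (k:ℝ) ≤ (K:ℝ) ^ (1 - η)) ⊆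
        Finset.Icc 1 ⌊(K:ℝ) ^ (1 - η)⌋₊ := by
      intro k hk
      rw [Finset.mem_filter, Finset.mem_Icc] at hk
      rw [Finset.mem_Icc]
      exact ⟨hk.1.1, Nat.le_floor hk.2⟩
    have h9 := Finset.card_le_card h8
    rw [Nat.card_Icc, Nat.add_sub_cancel] at h9
    calc (((Finset.Icc 1 K).filter (fun k : ℕ => (k:ℝ) ≤ (K:ℝ) ^ (1 - η))).card : ℝ)
        ≤ (⌊(K:ℝ) ^ (1 - η)⌋₊ : ℝ) := by exact_mod_cast h9
      _ ≤ _ := Nat.floor_le (Real.rpow_nonneg hK0.le _)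
  have h10 : (K:ℝ) ^ (1 - η) ≤ δ / 2 * (K / Real.log K) := by
    rw [Real.rpow_sub hK0, Real.rpow_one]
    have hp : 0 < (K:ℝ) ^ η := Real.rpow_pos_of_pos hK0 _
    rw [div_lt_iff₀ hp] at hK
    rw [div_le_iff₀ hp]
    calc (K:ℝ) = K / Real.log K * Real.log K := by field_simp
      _ ≤ K / Real.log K * (δ / 2 * (K:ℝ) ^ η) := by
          apply mul_le_mul_of_nonneg_left hK.le (by positivity)
      _ = _ := by ring
  unfold SK
  calc _ ≤ _ := h3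
    _ ≤ δ / 2 * (K / Real.log K) + (K:ℝ) * ((1 + δ / 2) / Real.log K) := by linarith
    _ = _ := by ring

/-- Basic size facts for `Y = floor (n^(1+δ))`. -/
theorem Y_facts {δ : ℝ} (hδ : 0 < δ) (hδ1 : δ < 1 / 2) {g : ℕ → ℝ}
    (hg : ∀ᶠ n : ℕ in atTop, g n ≤ (n:ℝ) ^ (δ / 4)) :
    ∀ᶠ n : ℕ in atTop, 2 * ⌊g n⌋₊ + 1 < ⌊(n:ℝ) ^ (1 + δ)⌋₊ ∧ 2 < (n - 1) ^ 2 ∧
      ⌊(n:ℝ) ^ (1 + δ)⌋₊ ≤ (n - 1) ^ 2 - 2 ∧ 3 ≤ ⌊(n:ℝ) ^ (1 + δ)⌋₊ ∧
      (2 * n * (⌊g n⌋₊ : ℝ)) ≤ 1 / 2 * ((⌊(n:ℝ) ^ (1 + δ)⌋₊ / 3 : ℕ) /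
        Real.log (⌊(n:ℝ) ^ (1 + δ)⌋₊ / 3 : ℕ)) := by
  have hsmall : ∀ᶠ n : ℕ in atTop, Real.log (n:ℝ) / (n:ℝ) ^ (δ / 4) < 1 / 2 := by
    have := (isLittleO_log_rpow_atTop (show 0 < δ / 4 by positivity)).tendsto_div_nhds_zero
    exact (this.comp tendsto_natCast_atTop_atTop).eventually (eventually_lt_nhds (by norm_num))
  have hbig : ∀ᶠ n : ℕ in atTop, (48:ℝ) ≤ (n:ℝ) ^ (δ / 2) :=
    ((tendsto_rpow_atTop (show 0 < δ / 2 by positivity)).comp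
      tendsto_natCast_atTop_atTop).eventually_ge_atTop 48
  filter_upwards [hg, hsmall, hbig, eventually_ge_atTop 16] with n h1 h2 h3 hn
  have hn16 : (16:ℝ) ≤ n := by exact_mod_cast hn
  have hn0 : (0:ℝ) < n := by linarith
  set Y := ⌊(n:ℝ) ^ (1 + δ)⌋₊ with hY
  have hYlt : (n:ℝ) ^ (1 + δ) < Y + 1 := Nat.lt_floor_add_one _
  have hYle : (Y:ℝ) ≤ (n:ℝ) ^ (1 + δ) := Nat.floor_le (Real.rpow_nonneg hn0.le _)
  have hK : (⌊g n⌋₊ : ℝ) ≤ (n:ℝ) ^ (δ / 4) := by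
    rcases le_or_gt 0 (g n) with h | h
    · exact (Nat.floor_le h).trans h1
    · rw [Nat.floor_of_nonpos h.le]; simp; exact Real.rpow_nonneg hn0.le _
  have p1 : (n:ℝ) ^ (1 + δ) = n * (n:ℝ) ^ δ := by rw [Real.rpow_add hn0, Real.rpow_one]
  have p2 : (n:ℝ) ^ δ = (n:ℝ) ^ (δ / 2) * (n:ℝ) ^ (δ / 4) * (n:ℝ) ^ (δ / 4) := by
    rw [← Real.rpow_add hn0, ← Real.rpow_add hn0]; congr 1; ring
  have p3 : 1 ≤ (n:ℝ) ^ (δ / 4) := Real.one_le_rpow (by linarith) (by positivity)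
  have p4 : (n:ℝ) ^ (δ / 4) ≤ (n:ℝ) ^ (1:ℝ) :=
    Real.rpow_le_rpow_of_exponent_le (by linarith) (by linarith)
  rw [Real.rpow_one] at p4
  have hYbig : 48 * (n:ℝ) * (n:ℝ) ^ (δ / 4) * (n:ℝ) ^ (δ / 4) ≤ (n:ℝ) ^ (1 + δ) := by
    rw [p1, p2]
    have : 0 ≤ (n:ℝ) * ((n:ℝ) ^ (δ / 4) * (n:ℝ) ^ (δ / 4)) := by positivity
    calc 48 * (n:ℝ) * (n:ℝ) ^ (δ / 4) * (n:ℝ) ^ (δ / 4)
        = 48 * ((n:ℝ) * ((n:ℝ) ^ (δ / 4) * (n:ℝ) ^ (δ / 4))) := by ring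
      _ ≤ (n:ℝ) ^ (δ / 2) * ((n:ℝ) * ((n:ℝ) ^ (δ / 4) * (n:ℝ) ^ (δ / 4))) := by gcongr
      _ = _ := by ring
  have q1 : (n:ℝ) ^ (δ / 4) ≤ (n:ℝ) ^ (δ / 4) * (n:ℝ) ^ (δ / 4) := by nlinarith
  have hYn : 48 * (n:ℝ) ≤ (n:ℝ) ^ (1 + δ) := by
    refine le_trans ?_ hYbig
    have : 1 ≤ (n:ℝ) ^ (δ / 4) * (n:ℝ) ^ (δ / 4) := by nlinarith
    calc 48 * (n:ℝ) = 48 * (n:ℝ) * 1 := by ring
      _ ≤ 48 * (n:ℝ) * ((n:ℝ) ^ (δ / 4) * (n:ℝ) ^ (δ / 4)) := by gcongr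
      _ = _ := by ring
  refine ⟨?_, ?_, ?_, ?_, ?_⟩
  · have : (2 * (⌊g n⌋₊ : ℝ) + 1) < Y := by linarith
    exact_mod_cast this
  · have : 3 ≤ n - 1 := by omega
    calc 2 < 3 ^ 2 := by norm_num
      _ ≤ (n - 1) ^ 2 := Nat.pow_le_pow_left this 2
  · have h5 : (n:ℝ) ^ (1 + δ) ≤ (n:ℝ) ^ 2 / 4 := by
      have h6 : (n:ℝ) ^ (1 + δ) ≤ (n:ℝ) ^ (3 / 2 : ℝ) :=
        Real.rpow_le_rpow_of_exponent_le (by linarith) (by linarith)
      have h7 : (n:ℝ) ^ (3 / 2 : ℝ) = n * Real.sqrt n := by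
        rw [Real.sqrt_eq_rpow, show (3 / 2 : ℝ) = 1 + 1 / 2 by norm_num, Real.rpow_add hn0,
          Real.rpow_one]
      have h8 : 4 * Real.sqrt n ≤ n := by
        have h9 : 4 ≤ Real.sqrt n := by
          apply Real.le_sqrt_of_sq_le; linarith
        calc 4 * Real.sqrt n ≤ Real.sqrt n * Real.sqrt n := by
              apply mul_le_mul_of_nonneg_right h9 (Real.sqrt_nonneg _)
          _ = n := Real.mul_self_sqrt hn0.le
      rw [h7] at h6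
      nlinarith
    have h6 : (Y:ℝ) + 2 ≤ ((n - 1 : ℕ) : ℝ) ^ 2 := by
      rw [Nat.cast_sub (by omega)]
      push_cast
      nlinarith
    have h7 : Y + 2 ≤ (n - 1) ^ 2 := by exact_mod_cast h6
    omega
  · have : (3:ℝ) ≤ Y := by linarith
    exact_mod_cast this
  · set W : ℕ := Y / 3 with hW
    have hW1 : (n:ℝ) ^ (1 + δ) / 6 ≤ W := by
      have h5 : Y < 3 * (W + 1) := by omega
      have h6 : (Y:ℝ) < 3 * (W + 1) := by exact_mod_cast h5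
      linarith
    have hWY : (W:ℝ) ≤ Y := by exact_mod_cast Nat.div_le_self Y 3
    have hW8 : (1:ℝ) < W := by linarith
    have hlW : 0 < Real.log W := Real.log_pos hW8
    have hlW2 : Real.log W ≤ (n:ℝ) ^ (δ / 4) := by
      have h5 : Real.log W ≤ Real.log ((n:ℝ) ^ (1 + δ)) :=
        Real.log_le_log (by linarith) (hWY.trans hYle)
      rw [Real.log_rpow hn0] at h5
      have hl : 0 < Real.log (n:ℝ) := Real.log_pos (by linarith)
      rw [div_lt_iff₀ (by positivity)] at h2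
      nlinarith
    rw [← mul_div_assoc, le_div_iff₀ hlW]
    calc 2 * (n:ℝ) * (⌊g n⌋₊ : ℝ) * Real.log W
        ≤ 2 * (n:ℝ) * (n:ℝ) ^ (δ / 4) * (n:ℝ) ^ (δ / 4) := by gcongr
      _ ≤ 1 / 2 * ((n:ℝ) ^ (1 + δ) / 6) := by nlinarith
      _ ≤ _ := by linarith

end

end Pool.Agent.Work.MP_c971ef_nt.Cramer
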