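import Mathlib
import Pool.Agent.Work.MP_c971ef_nt.Cramer.RealB
import Pool.Agent.Work.MP_c971ef_nt.Cramer.Fix

set_option autoImplicit false

namespace Pool.Agent.Work.MP_c971ef_nt.Cramer

open Filter Topology MeasureTheory ProbabilityTheory
open scoped BigOperators ENNReal NNReal

noncomputable section

section

variable {Ω : Type*} [mΩ : MeasurableSpace Ω] {μ : Measure Ω} {A : ℕ → Set Ω}

theorem bc [IsProbabilityMeasure μ] {s : ℕ → Set Ω} {f : ℕ → ℝ} (hf : Summable f)
    (h0 : ∀ n, 0 ≤ f n) (h : ∀ᶠ n in atTop, μ (s n) ≤ ENNReal.ofReal (f n)) :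
    ∀ᵐ ω ∂μ, ∀ᶠ n in atTop, ω ∉ s n := by
  obtain ⟨N, hN⟩ := eventually_atTop.mp h
  have hf' : Summable (fun n => f (n + N)) := (summable_nat_add_iff N).mpr hf
  have h1 : ∑' n, μ (s (n + N)) ≠ ⊤ := by
    apply ne_top_of_le_ne_top _ (ENNReal.tsum_le_tsum (fun n => hN (n + N) (by omega)))
    rw [← ENNReal.ofReal_tsum_of_nonneg (fun n => h0 _) hf']
    exact ENNReal.ofReal_ne_top
  filter_upwards [ae_eventually_notMem h1] with ω hω
  obtain ⟨M, hM⟩ := eventually_atTop.mp hω
  filter_upwards [eventually_ge_atTop (M + N)] with n hn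
  have := hM (n - N) (by omega)
  rwa [Nat.sub_add_cancel (by omega)] at this

open Classical in
/-- The number of `k ≤ K` with `2k+1` in the random set. -/
def cnt (A : ℕ → Set Ω) (ω : Ω) (K : ℕ) : ℕ :=
  ((Finset.Icc 1 K).filter (fun k => ω ∈ A (2 * k + 1))).card

/-- Indicators of the odd events. -/
def ind (A : ℕ → Set Ω) (k : ℕ) (ω : Ω) : ℝ := (A (2 * k + 1)).indicator (fun _ => (1:ℝ)) ω

theorem cnt_eq (ω : Ω) (K : ℕ) : (cnt A ω K : ℝ) = ∑ k ∈ Finset.Icc 1 K, ind A k ω := by
  classical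
  unfold cnt ind
  rw [Finset.card_filter]
  push_cast
  apply Finset.sum_congr rfl
  intro k _
  by_cases h : ω ∈ A (2 * k + 1)
  · simp [h]
  · simp [h]

theorem ind_mean (hM : IsCramer μ A) {k : ℕ} (hk : 1 ≤ k) :
    ∫ ω, ind A k ω ∂μ = 1 / Real.log ((2 * k + 1 : ℕ) : ℝ) := by
  unfold ind
  rw [integral_indicator_const _ (hM.meas _), Measure.real, hM.prob, if_neg (by omega)]
  have : 0 ≤ 1 / Real.log ((2 * k + 1 : ℕ) : ℝ) := by
    have := Real.log_natCast_nonneg (2 * k + 1)
    positivity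
  rw [ENNReal.toReal_ofReal this]
  simp

theorem ind_meas (hM : IsCramer μ A) (k : ℕ) : Measurable (ind A k) :=
  measurable_const.indicator (hM.meas _)

theorem ind_indep (hM : IsCramer μ A) : iIndepFun (fun k => ind A k) μ := by
  have h1 : iIndepSet (fun k => A (2 * k + 1)) μ :=
    hM.indep.precomp (g := fun k => 2 * k + 1) (by intro a b h; simp at h; exact h)
  exact h1.iIndepFun_indicator

theorem dev [IsProbabilityMeasure μ] (hM : IsCramer μ A) (K : ℕ) {ε : ℝ} (hε : 0 ≤ ε) :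
    μ.real {ω | SK K + ε ≤ cnt A ω K} ≤ Real.exp (-(2 * ε ^ 2 / K)) ∧
    μ.real {ω | (cnt A ω K : ℝ) + ε ≤ SK K} ≤ Real.exp (-(2 * ε ^ 2 / K)) := by
  set c : ℝ≥0 := (‖(1:ℝ) - 0‖₊ / 2) ^ 2 with hc
  have hcv : (c:ℝ) = 1 / 4 := by rw [hc]; norm_num
  set X : ℕ → Ω → ℝ := fun k ω => ind A k ω - ∫ ω, ind A k ω ∂μ with hX
  have hsub : ∀ k, HasSubgaussianMGF (X k) c μ := by
    intro k
    apply hasSubgaussianMGF_of_mem_Icc (ind_meas hM k).aemeasurable
    filter_upwards with ω
    unfold ind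
    by_cases h : ω ∈ A (2 * k + 1)
    · simp [h]
    · simp [h]
  have hind : iIndepFun X μ := by
    have := (ind_indep hM).comp (fun k x => x - ∫ ω, ind A k ω ∂μ)
      (fun k => measurable_id.sub_const _)
    exact this
  have hind' : iIndepFun (fun k ω => - X k ω) μ := by
    have := hind.comp (fun k x => - x) (fun k => measurable_neg)
    exact this
  have hsum : ∀ ω, ∑ k ∈ Finset.Icc 1 K, X k ω = cnt A ω K - SK K := by
    intro ω
    rw [cnt_eq, hX, SK, Finset.sum_sub_distrib]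
    congr 1
    apply Finset.sum_congr rfl
    intro k hk
    exact ind_mean hM (Finset.mem_Icc.mp hk).1
  have hexp : -ε ^ 2 / (2 * ((∑ k ∈ Finset.Icc 1 K, c : ℝ≥0) : ℝ)) = -(2 * ε ^ 2 / K) := by
    rw [NNReal.coe_sum, Finset.sum_const, Nat.card_Icc, nsmul_eq_mul, Nat.add_sub_cancel, hcv]
    rcases Nat.eq_zero_or_pos K with h | h
    · subst h; simp
    · have : (0:ℝ) < K := by exact_mod_cast h
      field_simp
      ring
  constructor
  · have h1 := HasSubgaussianMGF.measure_sum_ge_le_of_iIndepFun hind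
      (c := fun _ => c) (s := Finset.Icc 1 K) (fun k _ => hsub k) hε
    rw [hexp] at h1
    refine le_trans (le_of_eq ?_) h1
    congr 1
    ext ω
    simp only [Set.mem_ofPred_eq]
    rw [hsum ω]
    constructor
    · intro h; linarith
    · intro h; linarith
  · have h1 := HasSubgaussianMGF.measure_sum_ge_le_of_iIndepFun hind'
      (c := fun _ => c) (s := Finset.Icc 1 K) (fun k _ => (hsub k).neg) hε
    rw [hexp] at h1
    refine le_trans (le_of_eq ?_) h1
    congr 1
    ext ω
    simp only [Set.mem_ofPred_eq]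
    rw [Finset.sum_neg_distrib, hsum ω]
    constructor
    · intro h; linarith
    · intro h; linarith

theorem exp_small {δ : ℝ} (hδ : 0 < δ) :
    ∀ᶠ K : ℕ in atTop, Real.exp (-(2 * (δ * (K / Real.log K)) ^ 2 / K)) ≤ 1 / (K:ℝ) ^ 2 := by
  have h1 : Tendsto (fun x : ℝ => (Real.log x) ^ 3 / x) atTop (𝓝 0) := by
    have := (isLittleO_log_rpow_rpow_atTop (s := 1) 3 one_pos).tendsto_div_nhds_zero
    refine this.congr' ?_
    filter_upwards [eventually_gt_atTop (1:ℝ)] with x hx
    rw [Real.rpow_one]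
    norm_cast
  have h2 := (h1.comp tendsto_natCast_atTop_atTop).eventually
    (eventually_lt_nhds (show (0:ℝ) < δ ^ 2 by positivity))
  filter_upwards [h2, eventually_ge_atTop 2] with K hK hK2
  have hK2' : (2:ℝ) ≤ K := by exact_mod_cast hK2
  have hK0 : (0:ℝ) < K := by linarith
  have hl : 0 < Real.log K := Real.log_pos (by linarith)
  simp only [Function.comp] at hK
  rw [div_lt_iff₀ hK0] at hK
  have h3 : 2 * Real.log K ≤ 2 * (δ * (K / Real.log K)) ^ 2 / K := by
    have e : 2 * (δ * ((K:ℝ) / Real.log K)) ^ 2 / K = 2 * (δ ^ 2 * K / (Real.log K) ^ 2) := by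
      field_simp
    rw [e]
    apply mul_le_mul_of_nonneg_left _ (by norm_num)
    rw [le_div_iff₀ (by positivity)]
    nlinarith
  calc Real.exp (-(2 * (δ * (K / Real.log K)) ^ 2 / K)) ≤ Real.exp (-(2 * Real.log K)) := by
        apply Real.exp_le_exp.mpr; linarith
    _ = 1 / (K:ℝ) ^ 2 := by
        rw [Real.exp_neg, mul_comm, Real.exp_mul, Real.exp_log hK0, one_div]
        norm_cast

theorem cnt_ae [IsProbabilityMeasure μ] (hM : IsCramer μ A) :
    ∀ᵐ ω ∂μ, ∀ δ : ℝ, 0 < δ → ∀ᶠ K : ℕ in atTop,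
      (1 - δ) * (K / Real.log K) ≤ cnt A ω K ∧ (cnt A ω K : ℝ) ≤ (1 + δ) * (K / Real.log K) := by
  have hs : Summable (fun K : ℕ => 1 / (K:ℝ) ^ 2) := Real.summable_one_div_nat_pow.mpr (by norm_num)
  have h1 : ∀ j : ℕ, ∀ᵐ ω ∂μ, ∀ᶠ K : ℕ in atTop,
      (1 - 2 * (1 / ((j:ℝ) + 1))) * (K / Real.log K) ≤ cnt A ω K ∧
      (cnt A ω K : ℝ) ≤ (1 + 2 * (1 / ((j:ℝ) + 1))) * (K / Real.log K) := by
    intro j
    set d : ℝ := 1 / ((j:ℝ) + 1) with hd
    have hd0 : 0 < d := by positivity
    have a1 : ∀ᵐ ω ∂μ, ∀ᶠ K : ℕ in atTop,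
        ω ∉ {ω | SK K + d * (K / Real.log K) ≤ cnt A ω K} := by
      apply bc hs (fun n => by positivity)
      filter_upwards [exp_small hd0, eventually_ge_atTop 2] with K hK hK2
      have hK2' : (2:ℝ) ≤ K := by exact_mod_cast hK2
      have hl : 0 < Real.log K := Real.log_pos (by linarith)
      have := (dev hM K (ε := d * (K / Real.log K)) (by positivity)).1
      rw [← ofReal_measureReal]
      exact ENNReal.ofReal_le_ofReal (this.trans hK)
    have a2 : ∀ᵐ ω ∂μ, ∀ᶠ K : ℕ in atTop,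
        ω ∉ {ω | (cnt A ω K : ℝ) + d * (K / Real.log K) ≤ SK K} := by
      apply bc hs (fun n => by positivity)
      filter_upwards [exp_small hd0, eventually_ge_atTop 2] with K hK hK2
      have hK2' : (2:ℝ) ≤ K := by exact_mod_cast hK2
      have hl : 0 < Real.log K := Real.log_pos (by linarith)
      have := (dev hM K (ε := d * (K / Real.log K)) (by positivity)).2
      rw [← ofReal_measureReal]
      exact ENNReal.ofReal_le_ofReal (this.trans hK)
    filter_upwards [a1, a2] with ω b1 b2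
    filter_upwards [b1, b2, SK_ge hd0, SK_le hd0] with K c1 c2 c3 c4
    simp only [Set.mem_ofPred_eq, not_le] at c1 c2
    constructor
    · have : (1 - 2 * d) * (K / Real.log K) = (1 - d) * (K / Real.log K) -
        d * (K / Real.log K) := by ring
      linarith
    · have : (1 + 2 * d) * (K / Real.log K) = (1 + d) * (K / Real.log K) +
        d * (K / Real.log K) := by ring
      linarith
  rw [← ae_all_iff] at h1
  filter_upwards [h1] with ω hω
  intro δ hδ
  obtain ⟨j, hj⟩ := exists_nat_one_div_lt (show 0 < δ / 2 by positivity)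
  filter_upwards [hω j, eventually_ge_atTop 2] with K hK hK2
  have hK2' : (2:ℝ) ≤ K := by exact_mod_cast hK2
  have hl : 0 < Real.log K := Real.log_pos (by linarith)
  have hp : 0 ≤ (K:ℝ) / Real.log K := by positivity
  constructor
  · refine le_trans ?_ hK.1
    apply mul_le_mul_of_nonneg_right _ hp
    linarith
  · refine hK.2.trans ?_
    apply mul_le_mul_of_nonneg_right _ hp
    linarith

end

end

end Pool.Agent.Work.MP_c971ef_nt.Cramer
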