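import Mathlib
import Pool.Agent.Work.MP_c971ef_nt.Cramer.Model

set_option autoImplicit false

namespace Pool.Agent.Work.MP_c971ef_nt.Cramer

open Filter Topology MeasureTheory ProbabilityTheory
open scoped BigOperators ENNReal NNReal

noncomputable section

theorem exp_le_one_sub' {x : ℝ} (hx0 : 0 ≤ x) (hx : x ≤ 1 / 2) :
    Real.exp (-(x + 2 * x ^ 2)) ≤ 1 - x := by
  have h1 : 0 < 1 - x := by linarith
  have h2 : 1 - (1 - x)⁻¹ ≤ Real.log (1 - x) := Real.one_sub_inv_le_log_of_pos h1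
  have h3 : -(x + 2 * x ^ 2) ≤ Real.log (1 - x) := by
    refine le_trans ?_ h2
    have h4 : (1 - x)⁻¹ ≤ 1 + x + 2 * x ^ 2 := by
      rw [inv_le_comm₀ h1 (by positivity)]
      rw [inv_le_iff_one_le_mul₀ (by positivity)]
      nlinarith [mul_nonneg hx0 hx0, mul_nonneg (mul_nonneg hx0 hx0) (sub_nonneg.mpr hx)]
    linarith
  calc Real.exp (-(x + 2 * x ^ 2)) ≤ Real.exp (Real.log (1 - x)) := Real.exp_le_exp.mpr h3
    _ = 1 - x := Real.exp_log h1

theorem pow_one_sub_le {q : ℝ} (hq1 : q ≤ 1) (r : ℕ) : (1 - q) ^ r ≤ Real.exp (-(q * r)) := by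
  calc (1 - q) ^ r ≤ (Real.exp (-q)) ^ r := by
        apply pow_le_pow_left₀ (by linarith)
        have := Real.add_one_le_exp (-q)
        linarith
    _ = _ := by rw [← Real.exp_nat_mul]; congr 1; ring

section

variable {Ω : Type*} [mΩ : MeasurableSpace Ω] {μ : Measure Ω} {A : ℕ → Set Ω}

theorem cnt_le_below {Y : ℕ} (hY : 3 < Y) (ω : Ω) : cnt A ω (Y / 3) ≤ (below A Y ω).card := by
  classical
  unfold cnt
  apply Finset.card_le_card_of_injOn (fun k => 2 * k + 1)
  · intro k hk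
    rw [Finset.mem_coe, Finset.mem_filter, Finset.mem_Icc] at hk
    have hk3 : k ≤ Y / 3 := hk.1.2
    have hk4 : 2 * k + 1 < Y := by omega
    have hk5 : 2 * k + 1 ∈ below A Y ω := (mem_below hk4).mpr hk.2
    exact hk5
  · intro a _ b _ h
    simp only at h
    omega

theorem upper_ae [IsProbabilityMeasure μ] (hM : IsCramer μ A) {c : ℝ} (hc : 4 < c) :
    ∀ᵐ ω ∂μ, ∀ᶠ n : ℕ in atTop, ∃ k ∈ Finset.Icc 1 ⌊fc c n⌋₊, Adm A ω n k := by
  classical
  have hc0 : 0 < c := by linarith
  set δ : ℝ := (c - 4) / (2 * (c + 4)) with hδ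
  have hδ0 : 0 < δ := by
    rw [hδ]; apply div_pos <;> linarith
  have hδ1 : δ < 1 / 2 := by
    rw [hδ, div_lt_div_iff₀ (by linarith) (by norm_num)]; linarith
  have hρ : 1 < (1 - δ) / (2 * (1 + δ)) * (c / 2) := by
    have e : δ * (2 * (c + 4)) = c - 4 := by rw [hδ]; field_simp
    rw [div_mul_div_comm, lt_div_iff₀ (by positivity)]
    nlinarith
  set ρ := (1 - δ) / (2 * (1 + δ)) * (c / 2) with hρd
  set K : ℕ → ℕ := fun n => ⌊fc c n⌋₊ with hK
  set Y : ℕ → ℕ := fun n => ⌊(n:ℝ) ^ (1 + δ)⌋₊ with hY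
  set r : ℕ → ℕ := fun n => ⌈(1 - δ) * ((K n : ℝ) / Real.log (K n))⌉₊ with hr
  set s : ℕ → Set Ω := fun n => {ω | r n ≤ ((Finset.Icc 1 (K n)).filter
      (fun k => ω ∈ A (2 * k + 1))).card ∧
      K n * n ≤ (below A (Y n) ω).card ∧ ∀ k ∈ Finset.Icc 1 (K n), ¬ Adm A ω n k} with hs
  have hfacts := Y_facts hδ0 hδ1 (fc_le_rpow c hc0 (show 0 < δ / 4 by positivity))
  have hKt : Tendsto K atTop atTop := tendsto_nat_floor_atTop.comp (tendsto_fc hc0)
  have hYt : Tendsto (fun n => Y n / 3) atTop atTop := by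
    have h1 : Tendsto Y atTop atTop :=
      tendsto_nat_floor_atTop.comp ((tendsto_rpow_atTop (show 0 < 1 + δ by linarith)).comp
        tendsto_natCast_atTop_atTop)
    exact (Nat.tendsto_div_const_atTop (by norm_num)).comp h1
  -- the summable bound
  have hlim : ∀ᶠ n : ℕ in atTop, (1 + ρ) / 2 < (1 - δ) / (2 * (1 + δ)) *
      (((K n : ℝ) / Real.log (K n)) / (Real.log n) ^ 2) := by
    have h1 := (tendsto_K hc0).const_mul ((1 - δ) / (2 * (1 + δ)))
    exact h1.eventually (eventually_gt_nhds (by rw [← hρd]; linarith))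
  have hbound : ∀ᶠ n : ℕ in atTop, μ (s n) ≤ ENNReal.ofReal (1 / (n:ℝ) ^ ((1 + ρ) / 2)) := by
    filter_upwards [hfacts, hlim, eventually_ge_atTop 3, tendsto_L.eventually_gt_atTop 1,
      hKt.eventually_ge_atTop 3] with n h1 h2 h3 h4 h5
    obtain ⟨f1, f2, f3, f4, _⟩ := h1
    have hn0 : (0:ℝ) < n := by exact_mod_cast (by omega : 0 < n)
    have hY3 : (3:ℝ) ≤ (Y n : ℝ) := by exact_mod_cast f4
    have hlY1 : 1 ≤ Real.log (Y n) := by
      rw [Real.le_log_iff_exp_le (by linarith)]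
      have := Real.exp_one_lt_d9
      linarith
    have hlY : Real.log (Y n) ≤ (1 + δ) * Real.log n := by
      rw [← Real.log_rpow hn0]
      apply Real.log_le_log (by linarith)
      exact Nat.floor_le (Real.rpow_nonneg hn0.le _)
    set q : ℝ := 1 / (2 * Real.log (Y n)) with hq
    have hq0 : 0 ≤ q := by positivity
    have hq1 : q ≤ 1 := by rw [hq, div_le_one (by positivity)]; linarith
    have hmain := upper_fixed hM.meas hM.indep n (K n) (Y n) (r n) q hq0 hq1 (by omega) f1 f2 f3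
      (by
        intro t ht1 ht2
        have ht3 : 3 ≤ t := f4.trans ht1
        rw [hM.prob, if_neg (by omega)]
        apply ENNReal.ofReal_le_ofReal
        have ht0 : (3:ℝ) ≤ t := by exact_mod_cast ht3
        have hlt : 0 < Real.log t := Real.log_pos (by linarith)
        rw [hq]
        apply one_div_le_one_div_of_le hlt
        have : Real.log t ≤ Real.log ((Y n : ℝ) ^ 2) := by
          apply Real.log_le_log (by linarith)
          exact_mod_cast ht2
        rw [Real.log_pow] at this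
        push_cast at this
        exact this)
    refine hmain.trans (ENNReal.ofReal_le_ofReal ?_)
    refine (pow_one_sub_le hq1 (r n)).trans ?_
    have hKl : 0 < Real.log (K n) := Real.log_pos (by
      have : (3:ℝ) ≤ K n := by exact_mod_cast h5
      linarith)
    have hqr : (1 + ρ) / 2 * Real.log n ≤ q * r n := by
      have g1 : (1 - δ) * ((K n : ℝ) / Real.log (K n)) ≤ r n := Nat.le_ceil _
      have g2 : 1 / (2 * ((1 + δ) * Real.log n)) ≤ q := by
        rw [hq]
        apply one_div_le_one_div_of_le (by positivity)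
        linarith
      have g3 : 0 ≤ (1 - δ) * ((K n : ℝ) / Real.log (K n)) := by
        have : 0 ≤ 1 - δ := by linarith
        positivity
      calc (1 + ρ) / 2 * Real.log n
          ≤ ((1 - δ) / (2 * (1 + δ)) * (((K n : ℝ) / Real.log (K n)) / (Real.log n) ^ 2)) *
            Real.log n := by
            apply mul_le_mul_of_nonneg_right h2.le (by linarith)
        _ = 1 / (2 * ((1 + δ) * Real.log n)) * ((1 - δ) * ((K n : ℝ) / Real.log (K n))) := by
            field_simp
        _ ≤ q * ((1 - δ) * ((K n : ℝ) / Real.log (K n))) := mul_le_mul_of_nonneg_right g2 g3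
        _ ≤ q * r n := mul_le_mul_of_nonneg_left g1 hq0
    calc Real.exp (-(q * r n)) ≤ Real.exp (-((1 + ρ) / 2 * Real.log n)) := by
          apply Real.exp_le_exp.mpr; linarith
      _ = 1 / (n:ℝ) ^ ((1 + ρ) / 2) := by
          rw [Real.exp_neg, Real.rpow_def_of_pos hn0, one_div, mul_comm]
  have hae := bc (Real.summable_one_div_nat_rpow.mpr (show 1 < (1 + ρ) / 2 by linarith))
    (fun n => by positivity) hbound
  filter_upwards [hae, cnt_ae hM] with ω h1 h2
  have h3 := (h2 δ hδ0)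
  have h4 := (h2 (1 / 2) (by norm_num))
  filter_upwards [h1, hKt.eventually h3, hYt.eventually h4, hfacts, eventually_ge_atTop 16,
    hYt.eventually_ge_atTop 2] with n g1 g2 g3 g4 g5 g6
  obtain ⟨f1, f2, f3, f4, f5⟩ := g4
  by_contra hcon
  push Not at hcon
  apply g1
  refine ⟨?_, ?_, hcon⟩
  · apply Nat.ceil_le.mpr
    exact g2.1
  · have k1 : (K n * n : ℝ) ≤ cnt A ω (Y n / 3) := by
      have : (0:ℝ) ≤ n * (⌊fc c n⌋₊ : ℝ) := by positivity
      have e : (K n * n : ℝ) = n * (⌊fc c n⌋₊ : ℝ) := by rw [hK]; ring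
      have g31 := g3.1
      rw [e]
      calc (n:ℝ) * (⌊fc c n⌋₊ : ℝ) ≤ 2 * n * (⌊fc c n⌋₊ : ℝ) := by linarith
        _ ≤ _ := f5
        _ ≤ _ := by
            refine le_trans (le_of_eq ?_) g31
            norm_num
            rfl
    have k2 : K n * n ≤ cnt A ω (Y n / 3) := by exact_mod_cast k1
    exact k2.trans (cnt_le_below (by omega) ω)

theorem fc_mono {c : ℝ} (hc : 0 ≤ c) {n m : ℕ} (hn : 16 ≤ n) (hnm : n ≤ m) : fc c n ≤ fc c m := by
  have hn16 : (16:ℝ) ≤ n := by exact_mod_cast hn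
  have hnm' : (n:ℝ) ≤ m := by exact_mod_cast hnm
  have h1 : 1 ≤ Real.log n := by
    rw [Real.le_log_iff_exp_le (by linarith)]
    have := Real.exp_one_lt_d9
    linarith
  have h2 : Real.log n ≤ Real.log m := Real.log_le_log (by linarith) hnm'
  have h3 : 0 ≤ Real.log (Real.log n) := Real.log_nonneg h1
  have h4 : Real.log (Real.log n) ≤ Real.log (Real.log m) := Real.log_le_log (by linarith) h2
  unfold fc
  apply mul_le_mul _ h4 h3 (by positivity)
  apply mul_le_mul_of_nonneg_left _ hc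
  apply pow_le_pow_left₀ (by linarith) h2

theorem lower_ae [IsProbabilityMeasure μ] (hM : IsCramer μ A) {c : ℝ} (hc0 : 0 < c) (hc : c < 4) :
    ∀ᵐ ω ∂μ, ∀ᶠ N : ℕ in atTop, ∃ n, N ≤ n ∧ ∀ k ∈ Finset.Icc 1 ⌊fc c n⌋₊, ¬ Adm A ω n k := by
  classical
  set δ : ℝ := (4 - c) / (2 * (c + 4)) with hδ
  have hδ0 : 0 < δ := by
    rw [hδ]; apply div_pos <;> linarith
  have hδ1 : δ < 1 / 2 := by
    rw [hδ, div_lt_div_iff₀ (by linarith) (by norm_num)]; linarith
  have hρ : (1 + δ) / (2 * (1 - δ)) * (c / 2) < 1 := by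
    have e : δ * (2 * (c + 4)) = 4 - c := by rw [hδ]; field_simp
    have h1 : 0 < 1 - δ := by linarith
    rw [div_mul_div_comm, div_lt_one (by positivity)]
    nlinarith
  set ρ := (1 + δ) / (2 * (1 - δ)) * (c / 2) with hρd
  have hρ0 : 0 < ρ := by
    have h1 : 0 < 1 - δ := by linarith
    positivity
  set d1 : ℝ := (1 - ρ) / 2 with hd1
  have hd10 : 0 < d1 := by rw [hd1]; linarith
  set K : ℕ → ℕ := fun N => ⌊fc c (2 * N)⌋₊ with hK
  set D : ℕ → ℕ := fun N => N / K N with hD
  set Y : ℕ → ℕ := fun N => ⌊(N:ℝ) ^ (1 + δ)⌋₊ with hY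
  set r : ℕ → ℕ := fun N => ⌊(1 + δ) * ((K N : ℝ) / Real.log (K N))⌋₊ with hr
  set s : ℕ → Set Ω := fun N => {ω | ((Finset.Icc 1 (K N)).filter
      (fun k => ω ∈ A (2 * k + 1))).card ≤ r N ∧
      K N * (N + D N) ≤ (below A (Y N) ω).card ∧
      ∀ n ∈ Finset.Ico N (N + D N), ∃ k ∈ Finset.Icc 1 (K N), Adm A ω n k} with hs
  have h2N : Tendsto (fun N : ℕ => 2 * N) atTop atTop :=
    tendsto_id.const_mul_atTop' (by norm_num)
  have hsmallK : ∀ t : ℝ, 0 < t → ∀ᶠ N : ℕ in atTop, fc c (2 * N) ≤ (N:ℝ) ^ t := by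
    intro t ht
    have h1 := h2N.eventually (fc_le_rpow c hc0 (show 0 < t / 2 by positivity))
    filter_upwards [h1, eventually_ge_atTop 2] with N hN hN2
    have hN2' : (2:ℝ) ≤ N := by exact_mod_cast hN2
    refine hN.trans ?_
    calc ((2 * N : ℕ) : ℝ) ^ (t / 2) ≤ ((N:ℝ) ^ (2:ℝ)) ^ (t / 2) := by
          apply Real.rpow_le_rpow (by positivity) _ (by positivity)
          push_cast
          rw [Real.rpow_two]
          nlinarith
      _ = (N:ℝ) ^ t := by
          rw [← Real.rpow_mul (by linarith)]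
          congr 1
          ring
  have hfacts := Y_facts hδ0 hδ1 (hsmallK (δ / 4) (by positivity))
  have hKt : Tendsto K atTop atTop := tendsto_nat_floor_atTop.comp ((tendsto_fc hc0).comp h2N)
  have hYt : Tendsto (fun n => Y n / 3) atTop atTop := by
    have h1 : Tendsto Y atTop atTop :=
      tendsto_nat_floor_atTop.comp ((tendsto_rpow_atTop (show 0 < 1 + δ by linarith)).comp
        tendsto_natCast_atTop_atTop)
    exact (Nat.tendsto_div_const_atTop (by norm_num)).comp h1
  -- limits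
  have hlog2 : Tendsto (fun N : ℕ => Real.log ((2 * N : ℕ) : ℝ) / Real.log (N:ℝ)) atTop (𝓝 1) := by
    have h1 : Tendsto (fun N : ℕ => Real.log 2 / Real.log (N:ℝ) + 1) atTop (𝓝 (0 + 1)) :=
      (tendsto_const_nhds.div_atTop tendsto_L).add_const 1
    rw [zero_add] at h1
    refine h1.congr' ?_
    filter_upwards [eventually_ge_atTop 3, tendsto_L.eventually_gt_atTop 1] with N hN hl
    have hN0 : (0:ℝ) < N := by exact_mod_cast (by omega : 0 < N)
    push_cast
    rw [Real.log_mul (by norm_num) hN0.ne']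
    field_simp
  have hq0lim : Tendsto (fun N : ℕ => 1 + 1 / ((1 - δ) * Real.log (N:ℝ))) atTop (𝓝 1) := by
    have h0 : 0 < 1 - δ := by linarith
    have h1 : Tendsto (fun N : ℕ => 1 / ((1 - δ) * Real.log (N:ℝ))) atTop (𝓝 0) :=
      tendsto_const_nhds.div_atTop (tendsto_L.const_mul_atTop h0)
    simpa using h1.const_add 1
  have hlim : ∀ᶠ N : ℕ in atTop, (1 + δ) / (2 * (1 - δ)) *
      (((K N : ℝ) / Real.log (K N)) / (Real.log ((2 * N : ℕ) : ℝ)) ^ 2) *
      (Real.log ((2 * N : ℕ) : ℝ) / Real.log (N:ℝ)) ^ 2 *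
      (1 + 1 / ((1 - δ) * Real.log (N:ℝ))) < 1 - d1 := by
    have h1 := ((((tendsto_K hc0).comp h2N).const_mul ((1 + δ) / (2 * (1 - δ)))).mul
      (hlog2.pow 2)).mul hq0lim
    rw [one_pow, mul_one, mul_one] at h1
    have h2 := h1.eventually (eventually_lt_nhds (show (1 + δ) / (2 * (1 - δ)) * (c / 2) < 1 - d1 by
      rw [← hρd, hd1]; linarith))
    filter_upwards [h2] with N hN
    simpa [Function.comp] using hN
  have hlog : ∀ᶠ N : ℕ in atTop, Real.log (N:ℝ) / (N:ℝ) ^ (d1 / 2) < 1 / 4 := by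
    have := (isLittleO_log_rpow_atTop (show 0 < d1 / 2 by positivity)).tendsto_div_nhds_zero
    exact (this.comp tendsto_natCast_atTop_atTop).eventually (eventually_lt_nhds (by norm_num))
  have hbig2 : ∀ᶠ N : ℕ in atTop, (2:ℝ) ≤ (N:ℝ) ^ (1 - d1 / 2) :=
    ((tendsto_rpow_atTop (show 0 < 1 - d1 / 2 by rw [hd1]; linarith)).comp
      tendsto_natCast_atTop_atTop).eventually_ge_atTop 2
  have hbound : ∀ᶠ N : ℕ in atTop, μ (s N) ≤ ENNReal.ofReal (1 / (N:ℝ) ^ 2) := by
    filter_upwards [hfacts, hlim, eventually_ge_atTop 16,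
      tendsto_L.eventually_gt_atTop (4 / δ), hKt.eventually_ge_atTop 3,
      hsmallK (d1 / 2) (by positivity), hlog, hbig2] with N h1 h2 h3 h4 h5 h6 h7 h8
    obtain ⟨f1, f2, f3, f4, _⟩ := h1
    have hN16 : (16:ℝ) ≤ N := by exact_mod_cast h3
    have hN0 : (0:ℝ) < N := by linarith
    have hK3 : (3:ℝ) ≤ K N := by exact_mod_cast h5
    have hKl : 0 < Real.log (K N) := Real.log_pos (by linarith)
    have hδ4 : 8 < Real.log (N:ℝ) := by
      have : 8 ≤ 4 / δ := by rw [le_div_iff₀ hδ0]; linarith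
      linarith
    -- the probability bound
    set T : ℕ := (N - 1) ^ 2 - 2 with hT
    have hTr : (N:ℝ) ^ 2 / 4 ≤ (T:ℝ) := by
      have e1 : ((N - 1 : ℕ) : ℝ) = (N:ℝ) - 1 := by rw [Nat.cast_sub (by omega)]; simp
      have e2 : (T:ℝ) = ((N:ℝ) - 1) ^ 2 - 2 := by
        rw [hT, Nat.cast_sub (by omega)]
        push_cast
        rw [e1]
      rw [e2]
      nlinarith
    have hTl : 2 * (1 - δ) * Real.log N ≤ Real.log T := by
      have e1 : Real.log ((N:ℝ) ^ 2 / 4) ≤ Real.log T :=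
        Real.log_le_log (by positivity) hTr
      rw [Real.log_div (by positivity) (by norm_num), Real.log_pow] at e1
      push_cast at e1
      have e2 : Real.log 4 ≤ 2 := by
        have : Real.log 4 = 2 * Real.log 2 := by
          rw [show (4:ℝ) = 2 ^ 2 by norm_num, Real.log_pow]; push_cast; ring
        have := Real.log_two_lt_d9
        linarith
      rw [div_lt_iff₀ hδ0] at h4
      nlinarith
    have h1δ : 0 < 1 - δ := by linarith
    have hden : 0 < 2 * (1 - δ) * Real.log N := by positivity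
    set q : ℝ := 1 / (2 * (1 - δ) * Real.log N) with hq
    have hq0 : 0 ≤ q := by positivity
    have hqh : q ≤ 1 / 2 := by
      rw [hq]
      apply one_div_le_one_div_of_le (by norm_num)
      nlinarith
    have hmain := lower_fixed hM.meas hM.indep N (D N) (K N) (Y N) (r N) q hq0 (by linarith)
      (by omega) f1 f2 f3 (Nat.mul_div_le N (K N))
      (by
        intro t ht1 ht2
        have ht3 : 3 ≤ t := f4.trans ht1
        rw [hM.prob, if_neg (by omega)]
        apply ENNReal.ofReal_le_ofReal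
        rw [hq]
        apply one_div_le_one_div_of_le hden
        refine hTl.trans ?_
        apply Real.log_le_log (by
          have : 0 < (N:ℝ) ^ 2 / 4 := by positivity
          linarith)
        exact_mod_cast ht2)
    refine hmain.trans (ENNReal.ofReal_le_ofReal ?_)
    -- exponent
    have hrq : (q + 2 * q ^ 2) * r N ≤ (1 - d1) * Real.log N := by
      have g1 : (r N : ℝ) ≤ (1 + δ) * ((K N : ℝ) / Real.log (K N)) :=
        Nat.floor_le (by positivity)
      have hl2 : 0 < Real.log ((2 * N : ℕ) : ℝ) := by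
        apply Real.log_pos
        push_cast
        linarith
      calc (q + 2 * q ^ 2) * r N ≤ (q + 2 * q ^ 2) * ((1 + δ) * ((K N : ℝ) / Real.log (K N))) := by
            apply mul_le_mul_of_nonneg_left g1 (by positivity)
        _ = ((1 + δ) / (2 * (1 - δ)) *
            (((K N : ℝ) / Real.log (K N)) / (Real.log ((2 * N : ℕ) : ℝ)) ^ 2) *
            (Real.log ((2 * N : ℕ) : ℝ) / Real.log (N:ℝ)) ^ 2 *
            (1 + 1 / ((1 - δ) * Real.log (N:ℝ)))) * Real.log N := by
            rw [hq]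
            have : Real.log (N:ℝ) ≠ 0 := by linarith
            field_simp
        _ ≤ (1 - d1) * Real.log N := by
            apply mul_le_mul_of_nonneg_right h2.le (by linarith)
    have hpow : (N:ℝ) ^ (-(1 - d1)) ≤ (1 - q) ^ (r N) := by
      calc (N:ℝ) ^ (-(1 - d1)) = Real.exp (-((1 - d1) * Real.log N)) := by
            rw [Real.rpow_def_of_pos hN0]; congr 1; ring
        _ ≤ Real.exp (-((q + 2 * q ^ 2) * r N)) := by
            apply Real.exp_le_exp.mpr; linarith
        _ = (Real.exp (-(q + 2 * q ^ 2))) ^ (r N) := by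
            rw [← Real.exp_nat_mul]; congr 1; ring
        _ ≤ (1 - q) ^ (r N) := by
            apply pow_le_pow_left₀ (Real.exp_pos _).le (exp_le_one_sub' hq0 hqh)
    have hDge : (N:ℝ) ^ (1 - d1 / 2) / 2 ≤ (D N : ℝ) := by
      have g1 : (K N : ℝ) ≤ (N:ℝ) ^ (d1 / 2) := by
        refine le_trans (Nat.floor_le ?_) h6
        by_contra hneg
        rw [not_le] at hneg
        have : K N = 0 := Nat.floor_of_nonpos hneg.le
        omega
      have g2 : (N:ℝ) / K N - 1 ≤ (D N : ℝ) := by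
        have : N < K N * (N / K N + 1) := Nat.lt_mul_div_succ N (by omega)
        have h9 : (N:ℝ) < K N * ((D N : ℝ) + 1) := by exact_mod_cast this
        have : (N:ℝ) / K N < (D N : ℝ) + 1 := by
          rw [div_lt_iff₀ (by linarith), mul_comm]; exact h9
        linarith
      have g3 : (N:ℝ) ^ (1 - d1 / 2) ≤ (N:ℝ) / K N := by
        rw [Real.rpow_sub hN0, Real.rpow_one]
        apply div_le_div_of_nonneg_left hN0.le (by linarith) g1
      linarith
    have hprod : 2 * Real.log N ≤ (D N : ℝ) * (1 - q) ^ (r N) := by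
      have hp2 : 0 < (N:ℝ) ^ (d1 / 2) := Real.rpow_pos_of_pos hN0 _
      rw [div_lt_iff₀ hp2] at h7
      calc 2 * Real.log N ≤ (N:ℝ) ^ (d1 / 2) / 2 := by linarith
        _ = (N:ℝ) ^ (1 - d1 / 2) / 2 * (N:ℝ) ^ (-(1 - d1)) := by
            rw [div_mul_eq_mul_div, ← Real.rpow_add hN0]
            congr 2
            ring
        _ ≤ (D N : ℝ) * (1 - q) ^ (r N) := by
            apply mul_le_mul hDge hpow (Real.rpow_nonneg hN0.le _) (Nat.cast_nonneg _)
    have hx1 : (1 - q) ^ (r N) ≤ 1 := pow_le_one₀ (by linarith) (by linarith)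
    have hx0 : 0 ≤ (1 - q) ^ (r N) := pow_nonneg (by linarith) _
    calc (1 - (1 - q) ^ (r N)) ^ (D N) ≤ Real.exp (-((1 - q) ^ (r N) * D N)) :=
          pow_one_sub_le hx1 (D N)
      _ ≤ Real.exp (-(2 * Real.log N)) := by
          apply Real.exp_le_exp.mpr; linarith
      _ = 1 / (N:ℝ) ^ 2 := by
          rw [Real.exp_neg, mul_comm, Real.exp_mul, Real.exp_log hN0, one_div]
          norm_cast
  have hae := bc (Real.summable_one_div_nat_pow.mpr (by norm_num : 1 < 2))
    (fun n => by positivity) hbound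
  filter_upwards [hae, cnt_ae hM] with ω h1 h2
  have h3 := (h2 δ hδ0)
  have h4 := (h2 (1 / 2) (by norm_num))
  filter_upwards [h1, hKt.eventually h3, hYt.eventually h4, hfacts, eventually_ge_atTop 16,
    hYt.eventually_ge_atTop 2, hKt.eventually_ge_atTop 1] with N g1 g2 g3 g4 g5 g6 g7
  obtain ⟨f1, f2, f3, f4, f5⟩ := g4
  by_contra hcon
  push Not at hcon
  have hDN : D N ≤ N := Nat.div_le_self _ _
  apply g1
  refine ⟨?_, ?_, ?_⟩
  · apply Nat.le_floor
    exact g2.2
  · have k1 : ((K N * (N + D N) : ℕ) : ℝ) ≤ cnt A ω (Y N / 3) := by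
      have k0 : K N * (N + D N) ≤ 2 * N * K N := by nlinarith
      calc ((K N * (N + D N) : ℕ) : ℝ) ≤ ((2 * N * K N : ℕ) : ℝ) := by exact_mod_cast k0
        _ = 2 * N * (⌊fc c (2 * N)⌋₊ : ℝ) := by push_cast; rfl
        _ ≤ _ := f5
        _ ≤ _ := by
            refine le_trans (le_of_eq ?_) g3.1
            norm_num
            rfl
    have k2 : K N * (N + D N) ≤ cnt A ω (Y N / 3) := by exact_mod_cast k1
    exact k2.trans (cnt_le_below (by omega) ω)
  · intro n hn
    rw [Finset.mem_Ico] at hn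
    obtain ⟨k, hk, hadm⟩ := hcon n hn.1
    refine ⟨k, ?_, hadm⟩
    rw [Finset.mem_Icc] at hk ⊢
    refine ⟨hk.1, hk.2.trans ?_⟩
    apply Nat.floor_le_floor
    exact fc_mono hc0.le (by omega) (by omega)

end

end

end Pool.Agent.Work.MP_c971ef_nt.Cramer
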