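import Mathlib
import Pool.Agent.Work.MP_c971ef_nt.Cramer.Main

set_option autoImplicit false

namespace Pool.Agent.Work.MP_c971ef_nt.Cramer

open Filter Topology MeasureTheory ProbabilityTheory
open scoped BigOperators ENNReal NNReal

noncomputable section

/-- Cramér's model exists. -/
theorem exists_cramer : ∃ (Ω : Type) (_ : MeasurableSpace Ω) (μ : Measure Ω)
    (_ : IsProbabilityMeasure μ) (A : ℕ → Set Ω), IsCramer μ A := by
  let q : ℕ → ℝ := fun m => if m < 3 then 0 else 1 / Real.log m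
  have hq : ∀ m, 0 ≤ q m ∧ q m ≤ 1 := by
    intro m
    change 0 ≤ (if m < 3 then (0:ℝ) else 1 / Real.log m) ∧
      (if m < 3 then (0:ℝ) else 1 / Real.log m) ≤ 1
    split_ifs with h
    · exact ⟨le_rfl, zero_le_one⟩
    · have h3 : (3:ℝ) ≤ m := by exact_mod_cast (by omega : 3 ≤ m)
      have h1 : 1 ≤ Real.log m := by
        rw [Real.le_log_iff_exp_le (by linarith)]
        have := Real.exp_one_lt_d9
        linarith
      constructor
      · positivity
      · rw [div_le_one (by linarith)]; exact h1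
  let ν : ℕ → Measure Bool := fun m =>
    ENNReal.ofReal (q m) • Measure.dirac true + ENNReal.ofReal (1 - q m) • Measure.dirac false
  have hν : ∀ m, IsProbabilityMeasure (ν m) := by
    intro m
    refine ⟨?_⟩
    simp only [ν, Measure.add_apply, Measure.smul_apply, smul_eq_mul, measure_univ, mul_one]
    rw [← ENNReal.ofReal_add (hq m).1 (by linarith [(hq m).2])]
    simp
  let μ : Measure (ℕ → Bool) := Measure.infinitePi ν
  let A : ℕ → Set (ℕ → Bool) := fun m => {ω | ω m = true}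
  have hA : ∀ m, MeasurableSet (A m) := fun m =>
    measurableSet_eq_fun (measurable_pi_apply m) measurable_const
  have hbi : ∀ s : Finset ℕ, μ (⋂ m ∈ s, A m) = ∏ m ∈ s, ν m {true} := by
    intro s
    have h1 : ⋂ m ∈ s, A m = Set.pi (s : Set ℕ) (fun _ => ({true} : Set Bool)) := by
      ext ω; simp [A]
    rw [h1]
    exact Measure.infinitePi_pi ν (fun _ _ => MeasurableSet.singleton _)
  have hone : ∀ m, μ (A m) = ν m {true} := by
    intro m
    have := hbi {m}
    simpa using this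
  refine ⟨ℕ → Bool, inferInstance, μ, inferInstance, A, hA, ?_, ?_⟩
  · rw [iIndepSet_iff_meas_biInter hA]
    intro s
    rw [hbi]
    exact Finset.prod_congr rfl fun m _ => (hone m).symm
  · intro m
    rw [hone]
    simp only [ν, Measure.add_apply, Measure.smul_apply, smul_eq_mul]
    rw [Measure.dirac_apply' _ (MeasurableSet.singleton _),
      Measure.dirac_apply' _ (MeasurableSet.singleton _)]
    by_cases hm : m < 3
    · simp [q, hm]
    · simp [q, hm]

theorem fc_mono_c {c c' : ℝ} (h : c ≤ c') {n : ℕ} (hn : 16 ≤ n) : fc c n ≤ fc c' n := by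
  have hn16 : (16:ℝ) ≤ n := by exact_mod_cast hn
  have h1 : 1 ≤ Real.log n := by
    rw [Real.le_log_iff_exp_le (by linarith)]
    have := Real.exp_one_lt_d9
    linarith
  have h3 : 0 ≤ Real.log (Real.log n) := Real.log_nonneg h1
  unfold fc
  gcongr

theorem main {Ω : Type} [MeasurableSpace Ω] (μ : Measure Ω) [IsProbabilityMeasure μ]
    (A : ℕ → Set Ω) (hM : IsCramer μ A) :
    ∀ᵐ ω ∂μ, {m : ℕ | ω ∈ A m}.Infinite ∧
      (∀ᶠ n : ℕ in atTop, ∃ k : ℕ, 1 ≤ k ∧ k ≤ n ∧ Adm A ω n k) ∧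
      (∀ c : ℝ, 4 < c → ∀ᶠ n : ℕ in atTop, ∃ k : ℕ, 1 ≤ k ∧
        (k : ℝ) ≤ c * (Real.log n) ^ 2 * Real.log (Real.log n) ∧ Adm A ω n k) ∧
      (∀ c : ℝ, c < 4 → ∃ᶠ n : ℕ in atTop, ∀ k : ℕ, 1 ≤ k →
        (k : ℝ) ≤ c * (Real.log n) ^ 2 * Real.log (Real.log n) → ¬ Adm A ω n k) := by
  have h1 : ∀ᵐ ω ∂μ, ∀ j : ℕ, ∀ᶠ n : ℕ in atTop,
      ∃ k ∈ Finset.Icc 1 ⌊fc (4 + 1 / ((j:ℝ) + 1)) n⌋₊, Adm A ω n k := by
    rw [ae_all_iff]
    intro j
    apply upper_ae hM
    have : 0 < 1 / ((j:ℝ) + 1) := by positivity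
    linarith
  have h2 : ∀ᵐ ω ∂μ, ∀ j : ℕ, ∀ᶠ N : ℕ in atTop, ∃ n, N ≤ n ∧
      ∀ k ∈ Finset.Icc 1 ⌊fc (4 - 1 / ((j:ℝ) + 1)) n⌋₊, ¬ Adm A ω n k := by
    rw [ae_all_iff]
    intro j
    have h3 : 0 < 1 / ((j:ℝ) + 1) := by positivity
    have h4 : 1 / ((j:ℝ) + 1) ≤ 1 := by
      rw [div_le_one (by positivity)]
      have := Nat.cast_nonneg (α := ℝ) j
      linarith
    apply lower_ae hM <;> linarith
  filter_upwards [h1, h2, cnt_ae hM] with ω g1 g2 g3
  have hupper : ∀ c : ℝ, 4 < c → ∀ᶠ n : ℕ in atTop, ∃ k : ℕ, 1 ≤ k ∧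
      (k : ℝ) ≤ c * (Real.log n) ^ 2 * Real.log (Real.log n) ∧ Adm A ω n k := by
    intro c hc
    obtain ⟨j, hj⟩ := exists_nat_one_div_lt (show 0 < c - 4 by linarith)
    filter_upwards [g1 j, eventually_ge_atTop 16] with n hn hn16
    obtain ⟨k, hk, hadm⟩ := hn
    rw [Finset.mem_Icc] at hk
    refine ⟨k, hk.1, ?_, hadm⟩
    have h5 : fc (4 + 1 / ((j:ℝ) + 1)) n ≤ fc c n := fc_mono_c (by linarith) hn16
    have h6 : (k:ℝ) ≤ fc (4 + 1 / ((j:ℝ) + 1)) n := by
      have h7 : 1 ≤ ⌊fc (4 + 1 / ((j:ℝ) + 1)) n⌋₊ := hk.1.trans hk.2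
      have h8 : 0 ≤ fc (4 + 1 / ((j:ℝ) + 1)) n := by
        by_contra hneg
        rw [not_le] at hneg
        rw [Nat.floor_of_nonpos hneg.le] at h7
        omega
      exact (Nat.le_floor_iff h8).mp hk.2
    exact h6.trans h5
  refine ⟨?_, ?_, hupper, ?_⟩
  · -- infinitely many elements
    classical
    intro hfin
    have h5 := g3 (1 / 2) (by norm_num)
    have h6 : ∀ K : ℕ, cnt A ω K ≤ hfin.toFinset.card := by
      intro K
      unfold cnt
      apply Finset.card_le_card_of_injOn (fun k => 2 * k + 1)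
      · intro k hk
        rw [Finset.mem_coe, Finset.mem_filter] at hk
        rw [Finset.mem_coe, Set.Finite.mem_toFinset]
        exact hk.2
      · intro a _ b _ h
        simp only at h
        omega
    have h7 : Tendsto (fun x : ℝ => Real.log x / x) atTop (𝓝 0) := tendsto_log_div
    have h8 := (h7.comp tendsto_natCast_atTop_atTop).eventually
      (eventually_lt_nhds (show (0:ℝ) < 1 / (2 * (hfin.toFinset.card + 1)) by positivity))
    obtain ⟨K, hK1, hK2, hK3⟩ := (h5.and (h8.and (eventually_ge_atTop 3))).exists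
    have hK3' : (3:ℝ) ≤ K := by exact_mod_cast hK3
    have hl : 0 < Real.log K := Real.log_pos (by linarith)
    simp only [Function.comp] at hK2
    rw [div_lt_div_iff₀ (by linarith) (by positivity)] at hK2
    have h9 : (cnt A ω K : ℝ) ≤ hfin.toFinset.card := by exact_mod_cast h6 K
    have h10 : (hfin.toFinset.card : ℝ) + 1 < (1 - 1 / 2) * (K / Real.log K) := by
      rw [← mul_div_assoc, lt_div_iff₀ hl]
      linarith
    linarith [hK1.1]
  · filter_upwards [hupper 5 (by norm_num), fc_le_rpow 5 (by norm_num) one_pos] with n hn hn2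
    obtain ⟨k, hk1, hk2, hk3⟩ := hn
    refine ⟨k, hk1, ?_, hk3⟩
    rw [Real.rpow_one] at hn2
    have : (k:ℝ) ≤ n := hk2.trans hn2
    exact_mod_cast this
  · intro c hc
    obtain ⟨j, hj⟩ := exists_nat_one_div_lt (show 0 < 4 - c by linarith)
    rw [frequently_atTop]
    intro a
    obtain ⟨N, hN1, hN2⟩ := ((g2 j).and (eventually_ge_atTop (max a 16))).exists
    obtain ⟨n, hn1, hn2⟩ := hN1
    have hn16 : 16 ≤ n := (le_max_right a 16).trans (hN2.trans hn1)
    refine ⟨n, (le_max_left a 16).trans (hN2.trans hn1), ?_⟩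
    intro k hk1 hk2
    apply hn2 k
    rw [Finset.mem_Icc]
    refine ⟨hk1, ?_⟩
    apply Nat.le_floor
    exact hk2.trans (fc_mono_c (by linarith) hn16)

end

end Pool.Agent.Work.MP_c971ef_nt.Cramer
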